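import Pool.Agent.H686Z.Free.Disc

set_option autoImplicit false

namespace Pool.Agent.H686Z.Walsh

open Finset MeasureTheory Filter Topology
open scoped ENNReal

lemma var_refine {Y : Type*} [NormedAddCommGroup Y] (u : ℕ → Y) (m : ℕ) :
    var m (fun a => u (2 * a)) ≤ var (2 * m) u := by
  induction m with
  | zero => simp [var]
  | succ m ih =>
    simp only [var] at ih ⊢
    rw [sum_range_succ, show 2 * (m + 1) = 2 * m + 1 + 1 by ring, sum_range_succ, sum_range_succ]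
    have := norm_sub_le_norm_sub_add_norm_sub (u (2 * m + 1 + 1)) (u (2 * m + 1)) (u (2 * m))
    linarith

lemma lintegral_shift (g : ℝ → ℝ≥0∞) {s : ℝ} (h0 : 0 ≤ s) (h1 : s ≤ 1) :
    ∫⁻ y in Set.Icc (0 : ℝ) 1, g (y + s) ≤ ∫⁻ y in Set.Icc (0 : ℝ) 2, g y := by
  rw [← lintegral_indicator measurableSet_Icc, ← lintegral_indicator measurableSet_Icc,
    ← lintegral_add_right_eq_self ((Set.Icc (0 : ℝ) 2).indicator g) s]
  apply lintegral_mono
  intro y
  by_cases hy : y ∈ Set.Icc (0 : ℝ) 1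
  · have : y + s ∈ Set.Icc (0 : ℝ) 2 := ⟨by linarith [hy.1], by linarith [hy.2]⟩
    simp only [Set.indicator_of_mem hy, Set.indicator_of_mem this, le_refl]
  · simp only [Set.indicator_of_notMem hy, zero_le]

theorem abs_main {Y : Type*} [NormedAddCommGroup Y] [NormedSpace ℝ Y]
    {Ω : Type*} [MeasurableSpace Ω] {ν : Measure Ω}
    (Φ : ℝ → ℝ → Y) (L : ℝ) (hL : 0 ≤ L)
    (hH : ∀ x x' y, ‖Φ x y - Φ x' y‖ ≤ L * |x - x'|)
    (hV : ∀ x y y', ‖Φ x y - Φ x y'‖ ≤ L * |y - y'|)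
    (hlow : ∀ (N : ℕ) (y0 : ℝ) (t : ℕ), t < N → ∀ A ∈ fam N t, ∀ T ∈ fam N t,
      ∀ (v : ℕ → ℕ → ℝ) (B : ℝ), 0 ≤ B →
      (∀ a b a' b', |v a b - v a' b'| ≤ B * (|(a : ℝ) - a'| + |(b : ℝ) - b'|)) →
      co N A T v ≤ 2 * B *
        ‖co N A T (fun a b => (2 ^ N : ℝ) • Φ (a / 2 ^ N) (y0 + b / 2 ^ N))‖)
    (S : Y →L[ℝ] Lp ℝ 1 ν) (R U : ℕ → Y →L[ℝ] Y) (C : ℝ) (hC : 0 ≤ C)
    (hR : ∀ K y, ∑ k ∈ range K, ‖R k y‖ ≤ C * ‖y‖)
    (hU : ∀ K y, ‖U K y‖ₑ ≤ ∑' k, ‖R (k + K) y‖ₑ)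
    (hdec : ∀ K, ∃ (m : ℕ) (lam : Fin m → Y →L[ℝ] ℝ),
      ∀ y, ‖y‖ ≤ ‖S y‖ + ∑ i, |lam i y| + ‖U K y‖) : False := by
  let v : ℕ → ℕ → ℝ → ℝ := fun N k y => var (2 ^ N) (fun a => R k (Φ (a / 2 ^ N) y))
  have hcont : ∀ x, Continuous (Φ x) := by
    intro x
    have : LipschitzWith ⟨L, hL⟩ (Φ x) := LipschitzWith.of_dist_le_mul fun y y' => by
      rw [dist_eq_norm, Real.dist_eq]; exact hV x y y'
    exact this.continuous
  have hvc : ∀ N k, Continuous (v N k) := by
    intro N k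
    simp only [v, var]
    apply continuous_finsetSum
    intro a _
    exact (((R k).continuous.comp (hcont _)).sub ((R k).continuous.comp (hcont _))).norm
  have hvm : ∀ N k, Measurable fun y => ENNReal.ofReal (v N k y) := fun N k =>
    (hvc N k).measurable.ennreal_ofReal
  have hmono : ∀ N k y, v N k y ≤ v (N + 1) k y := by
    intro N k y
    have := var_refine (fun a : ℕ => R k (Φ (a / 2 ^ (N + 1)) y)) (2 ^ N)
    simp only [v]
    rw [pow_succ' 2 N]
    refine le_trans (le_of_eq ?_) this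
    congr 1
    funext a
    congr 2
    push_cast
    field_simp
    ring
  have hsum : ∀ N K y, ∑ k ∈ range K, v N k y ≤ C * L := by
    intro N K y
    simp only [v, var]
    rw [sum_comm]
    have : ∀ a ∈ range (2 ^ N), ∑ k ∈ range K,
        ‖R k (Φ (((a + 1 : ℕ) : ℝ) / 2 ^ N) y) - R k (Φ ((a : ℝ) / 2 ^ N) y)‖ ≤
        C * (L / 2 ^ N) := by
      intro a _
      simp only [← map_sub]
      refine (hR K _).trans (mul_le_mul_of_nonneg_left ((hH _ _ _).trans (le_of_eq ?_)) hC)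
      rw [← sub_div]
      push_cast
      rw [add_sub_cancel_left, abs_of_pos (by positivity)]
      ring
    refine (sum_le_sum this).trans (le_of_eq ?_)
    simp only [sum_const, card_range, nsmul_eq_mul]
    push_cast
    field_simp
  let I : ℕ → ℕ → ℝ≥0∞ := fun N k => ∫⁻ y in Set.Icc (0 : ℝ) 2, ENNReal.ofReal (v N k y)
  have hImono : ∀ k, Monotone fun N => I N k := by
    intro k
    apply monotone_nat_of_le_succ
    intro N
    exact lintegral_mono fun y => ENNReal.ofReal_le_ofReal (hmono N k y)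
  have hv0 : ∀ N k y, 0 ≤ v N k y := fun N k y => var_nonneg _ _
  have hIsum : ∀ N K, ∑ k ∈ range K, I N k ≤ ENNReal.ofReal (C * L) * 2 := by
    intro N K
    simp only [I]
    rw [← lintegral_finsetSum _ (fun k _ => hvm N k)]
    have : ∀ y, ∑ k ∈ range K, ENNReal.ofReal (v N k y) ≤ ENNReal.ofReal (C * L) := by
      intro y
      rw [← ENNReal.ofReal_sum_of_nonneg (fun k _ => hv0 N k y)]
      exact ENNReal.ofReal_le_ofReal (hsum N K y)
    refine (lintegral_mono this).trans (le_of_eq ?_)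
    simp
  let Jk : ℕ → ℝ≥0∞ := fun k => ⨆ N, I N k
  have hJ : ∑' k, Jk k ≠ ∞ := by
    apply ne_top_of_le_ne_top (b := ENNReal.ofReal (C * L) * 2)
    · exact ENNReal.mul_ne_top ENNReal.ofReal_ne_top (by norm_num)
    rw [ENNReal.tsum_eq_iSup_nat]
    apply iSup_le
    intro K
    simp only [Jk]
    rw [ENNReal.finsetSum_iSup_of_monotone (fun k => hImono k)]
    exact iSup_le fun N => hIsum N K
  have hlim := ENNReal.tendsto_sum_nat_add Jk hJ
  have hpos : (0 : ℝ≥0∞) < ENNReal.ofReal (1 / 384) := by simp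
  obtain ⟨K, hK⟩ := (hlim.eventually (gt_mem_nhds hpos)).exists
  obtain ⟨m, lam, hlam⟩ := hdec K
  obtain ⟨J0, hJ0⟩ := exists_nat_ge (1024 * (‖S‖ * L))
  let J := J0 + 1
  obtain ⟨N0, hN0⟩ := pow_unbounded_of_one_lt
    (512 * 2 ^ (J ^ 2 + 2) * (L * ∑ i, ‖lam i‖)) (by norm_num : (1 : ℝ) < 2)
  let N := N0 + (J ^ 2 + 2)
  have hn : (0 : ℝ) < 2 ^ N := by positivity
  let T : ℝ → ℝ≥0∞ := fun y => ∑' k, ENNReal.ofReal (v N (k + K) y)
  have hTm : Measurable T := Measurable.ennreal_tsum fun k => hvm N (k + K)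
  have key : ∀ y0 : ℝ, ENNReal.ofReal (2 ^ N / 384) ≤
      ∑ b ∈ range (2 ^ N), T (y0 + b / 2 ^ N) := by
    intro y0
    have h1 := disc (fun a b => (2 ^ N : ℝ) • Φ (a / 2 ^ N) (y0 + b / 2 ^ N)) S (U K) univ lam
      hlam L hL
      (by
        intro a a' b
        rw [← smul_sub, norm_smul, Real.norm_eq_abs, abs_of_pos hn]
        refine (mul_le_mul_of_nonneg_left (hH _ _ _) hn.le).trans (le_of_eq ?_)
        rw [← sub_div, abs_div, abs_of_pos hn]
        field_simp)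
      (by
        intro a b
        rw [← smul_sub, norm_smul, Real.norm_eq_abs, abs_of_pos hn]
        refine (mul_le_mul_of_nonneg_left (hV _ _ _) hn.le).trans (le_of_eq ?_)
        rw [add_sub_add_left_eq_sub, ← sub_div, abs_div, abs_of_pos hn]
        push_cast
        rw [add_sub_cancel_left, abs_one]
        field_simp)
      J N (Nat.succ_pos _) (Nat.le_add_left _ _) (hlow N y0)
      (by push_cast [J]; linarith)
      (hN0.le.trans (pow_le_pow_right₀ (by norm_num) (Nat.le_add_right _ _)))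
    have h2 : VH N (fun a b => U K ((2 ^ N : ℝ) • Φ (a / 2 ^ N) (y0 + b / 2 ^ N))) =
        2 ^ N * ∑ b ∈ range (2 ^ N),
          var (2 ^ N) (fun a => U K (Φ (a / 2 ^ N) (y0 + b / 2 ^ N))) := by
      simp only [VH, var]
      rw [mul_sum]
      apply sum_congr rfl; intro b _
      rw [mul_sum]
      apply sum_congr rfl; intro a _
      rw [map_smul, map_smul, ← smul_sub, norm_smul, Real.norm_eq_abs, abs_of_pos hn]
    rw [h2] at h1
    have h3 : (2 : ℝ) ^ N / 384 ≤ ∑ b ∈ range (2 ^ N),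
        var (2 ^ N) (fun a => U K (Φ (a / 2 ^ N) (y0 + b / 2 ^ N))) := by
      apply le_of_mul_le_mul_left _ hn
      refine le_trans (le_of_eq ?_) h1
      ring
    refine (ENNReal.ofReal_le_ofReal h3).trans ?_
    rw [ENNReal.ofReal_sum_of_nonneg (fun b _ => var_nonneg _ _)]
    apply sum_le_sum
    intro b _
    simp only [T, v, var]
    rw [ENNReal.ofReal_sum_of_nonneg (fun b _ => norm_nonneg _)]
    simp_rw [ENNReal.ofReal_sum_of_nonneg (fun b _ => norm_nonneg _)]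
    rw [Summable.tsum_finsetSum (fun _ _ => ENNReal.summable)]
    apply sum_le_sum
    intro a _
    simp only [← map_sub, ofReal_norm]
    exact hU K _
  have h4 : ENNReal.ofReal (2 ^ N / 384) ≤
      ∫⁻ y0 in Set.Icc (0 : ℝ) 1, ∑ b ∈ range (2 ^ N), T (y0 + b / 2 ^ N) := by
    refine le_trans (le_of_eq ?_) (lintegral_mono key)
    simp
  rw [lintegral_finsetSum (f := fun (b : ℕ) (y0 : ℝ) => T (y0 + b / 2 ^ N)) _
    (fun b _ => hTm.comp (measurable_id.add_const _))] at h4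
  have h5 : ∀ b ∈ range (2 ^ N), ∫⁻ y0 in Set.Icc (0 : ℝ) 1, T (y0 + b / 2 ^ N) ≤
      ∑' k, Jk (k + K) := by
    intro b hb
    have hb' : (b : ℝ) ≤ 2 ^ N := by exact_mod_cast (mem_range.1 hb).le
    refine (lintegral_shift T (by positivity) ((div_le_one hn).2 hb')).trans ?_
    simp only [T]
    rw [lintegral_tsum (fun k => (hvm N (k + K)).aemeasurable)]
    exact ENNReal.tsum_le_tsum fun k => le_iSup (fun N => I N (k + K)) N
  have h6 := h4.trans (sum_le_sum h5)
  rw [sum_const, card_range, nsmul_eq_mul] at h6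
  have h7 : ENNReal.ofReal (2 ^ N / 384) = ((2 ^ N : ℕ) : ℝ≥0∞) * ENNReal.ofReal (1 / 384) := by
    rw [← ENNReal.ofReal_natCast, ← ENNReal.ofReal_mul (by positivity)]
    congr 1
    push_cast
    ring
  rw [h7] at h6
  have h8 := (ENNReal.mul_le_mul_iff_right (by positivity) (ENNReal.natCast_ne_top _)).1 h6
  exact absurd hK (not_lt.2 h8)

end Pool.Agent.H686Z.Walsh
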