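import Pool.Agent.H686Z.Free.Walsh

set_option autoImplicit false

namespace Pool.Agent.H686Z.Walsh

open Finset MeasureTheory

section Var
variable {Y : Type*} [NormedAddCommGroup Y]

/-- variation of a sequence on the first `n` steps -/
def var (n : ℕ) (u : ℕ → Y) : ℝ := ∑ e ∈ range n, ‖u (e + 1) - u e‖

lemma var_nonneg (n : ℕ) (u : ℕ → Y) : 0 ≤ var n u := sum_nonneg fun _ _ => norm_nonneg _

lemma norm_sub_le_Ico (u : ℕ → Y) (a b : ℕ) :
    ‖u a - u b‖ ≤ ∑ e ∈ Ico (min a b) (max a b), ‖u (e + 1) - u e‖ := by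
  have key : ∀ a b : ℕ, a ≤ b → ‖u a - u b‖ ≤ ∑ e ∈ Ico a b, ‖u (e + 1) - u e‖ := by
    intro a b h
    have := dist_le_Ico_sum_dist u h
    rw [dist_eq_norm] at this
    refine this.trans (le_of_eq ?_)
    apply sum_congr rfl; intro e _
    rw [dist_eq_norm, norm_sub_rev]
  rcases le_total a b with h | h
  · rw [min_eq_left h, max_eq_right h]; exact key a b h
  · rw [min_eq_right h, max_eq_left h, norm_sub_rev]; exact key b a h

lemma norm_sub_le_var (u : ℕ → Y) {n a b : ℕ} (ha : a < n) (hb : b < n) :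
    ‖u a - u b‖ ≤ var n u := by
  refine (norm_sub_le_Ico u a b).trans ?_
  apply sum_le_sum_of_subset_of_nonneg
  · intro e he
    have := mem_Ico.1 he
    apply mem_range.2
    omega
  · intro _ _ _; exact norm_nonneg _

lemma sum_fl_le_var (u : ℕ → Y) {N t : ℕ} (ht : t < N) :
    ∑ a ∈ range (2 ^ N), ‖u a - u (fl t a)‖ ≤ 6 * 2 ^ t * var (2 ^ N) u := by
  set B := 2 ^ (t + 1) with hB
  have h1 : ∀ a ∈ range (2 ^ N), ‖u a - u (fl t a)‖ ≤
      ∑ e ∈ range (2 ^ N), if a ≤ e + B ∧ e ≤ a + B then ‖u (e + 1) - u e‖ else 0 := by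
    intro a ha
    refine (norm_sub_le_Ico u a (fl t a)).trans ?_
    rw [← sum_filter]
    apply sum_le_sum_of_subset_of_nonneg
    · intro e he
      have h2 := mem_Ico.1 he
      have h3 := fl_close t a
      have h4 := fl_lt ht (mem_range.1 ha)
      have h5 := mem_range.1 ha
      rw [mem_filter, mem_range]
      omega
    · intro _ _ _; exact norm_nonneg _
  refine (sum_le_sum h1).trans ?_
  rw [sum_comm, var, mul_sum]
  apply sum_le_sum
  intro e _
  rw [← sum_filter, sum_const, nsmul_eq_mul]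
  apply mul_le_mul_of_nonneg_right _ (norm_nonneg _)
  have h2 : ((range (2 ^ N)).filter fun a => a ≤ e + B ∧ e ≤ a + B) ⊆ Icc (e - B) (e + B) := by
    intro a ha
    rw [mem_filter] at ha
    rw [mem_Icc]
    omega
  have h3 := card_le_card h2
  rw [Nat.card_Icc] at h3
  have h4 : 0 < 2 ^ t := by positivity
  have h5 : ((range (2 ^ N)).filter fun a => a ≤ e + B ∧ e ≤ a + B).card ≤ 6 * 2 ^ t := by
    have : B = 2 * 2 ^ t := by rw [hB]; ring
    omega
  exact_mod_cast h5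

/-- horizontal variation -/
def VH (N : ℕ) (F : ℕ → ℕ → Y) : ℝ := ∑ b ∈ range (2 ^ N), var (2 ^ N) (fun a => F a b)

/-- vertical variation -/
def VV (N : ℕ) (F : ℕ → ℕ → Y) : ℝ := ∑ a ∈ range (2 ^ N), var (2 ^ N) (fun b => F a b)

lemma norm_co_le [NormedSpace ℝ Y] {N t : ℕ} {S : Finset ℕ} (hS : t ∈ S) (ht : t < N)
    (T : Finset ℕ) (F : ℕ → ℕ → Y) : ‖co N S T F‖ ≤ 3 * 2 ^ t * VH N F := by
  rw [co_fl hS ht]
  unfold co VH
  refine (norm_sum_le _ _).trans ?_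
  rw [mul_sum]
  apply sum_le_sum
  intro b _
  rw [norm_smul, Real.norm_eq_abs, abs_w, one_mul]
  refine (norm_sum_le _ _).trans ?_
  have h1 := sum_fl_le_var (fun a => F a b) ht
  have h2 : ∀ a, ‖w S a • ((1 / 2 : ℝ) • (F a b - F (fl t a) b))‖ =
      (1 / 2) * ‖F a b - F (fl t a) b‖ := by
    intro a
    rw [norm_smul, norm_smul, Real.norm_eq_abs, abs_w, one_mul]
    norm_num
  simp_rw [h2]
  rw [← mul_sum]
  linarith

end Var

lemma sobolev (N : ℕ) (I : Finset ℕ) (hI : ∀ t ∈ I, t < N) (f : ℕ → ℕ → ℝ) :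
    ∑ t ∈ I, ∑ S ∈ fam N t, ∑ T ∈ fam N t, (co N S T f) ^ 2 ≤
      (2 ^ N) ^ 2 * (VH N f + VV N f) ^ 2 := by
  have hne : (range (2 ^ N)).Nonempty := ⟨0, mem_range.2 (by positivity)⟩
  obtain ⟨b0, hb0, hb⟩ := exists_min_image (range (2 ^ N)) (fun b => var (2 ^ N) (fun a => f a b)) hne
  obtain ⟨a0, ha0, ha⟩ := exists_min_image (range (2 ^ N)) (fun a => var (2 ^ N) (fun b => f a b)) hne
  let g : ℕ → ℕ → ℝ := fun a b => f a b - f a0 b - (f a b0 - f a0 b0)
  have hco : ∀ t ∈ I, ∀ S ∈ fam N t, ∀ T ∈ fam N t, co N S T f = co N S T g := by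
    intro t ht S hS T hT
    have hS0 := sum_w (mem_fam hS (hI t ht)).1 (hI t ht)
    have hT0 := sum_w (mem_fam hT (hI t ht)).1 (hI t ht)
    unfold co
    simp only [smul_eq_mul, g]
    have e1 : ∀ b, ∑ a ∈ range (2 ^ N), w S a * (f a b - f a0 b - (f a b0 - f a0 b0)) =
        ∑ a ∈ range (2 ^ N), w S a * f a b - ∑ a ∈ range (2 ^ N), w S a * f a b0 := by
      intro b
      have : ∀ a, w S a * (f a b - f a0 b - (f a b0 - f a0 b0)) =
          w S a * f a b - w S a * f a b0 - w S a * (f a0 b - f a0 b0) := by intro a; ring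
      simp_rw [this]
      rw [sum_sub_distrib, sum_sub_distrib, ← sum_mul, hS0]
      ring
    simp_rw [e1, mul_sub]
    rw [sum_sub_distrib, ← sum_mul, hT0]
    ring
  have h1 : ∑ t ∈ I, ∑ S ∈ fam N t, ∑ T ∈ fam N t, (co N S T f) ^ 2 =
      ∑ t ∈ I, ∑ S ∈ fam N t, ∑ T ∈ fam N t, (co N S T g) ^ 2 := by
    apply sum_congr rfl; intro t ht
    apply sum_congr rfl; intro S hS
    apply sum_congr rfl; intro T hT
    rw [hco t ht S hS T hT]
  rw [h1]
  refine (bessel_all N I hI (fun S T => co N S T g)).trans ?_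
  rw [parseval2]
  apply mul_le_mul_of_nonneg_left _ (by positivity)
  have h2 : ∀ b ∈ range (2 ^ N), ∀ a ∈ range (2 ^ N), g a b ^ 2 ≤
      (2 * var (2 ^ N) (fun a => f a b)) * (2 * var (2 ^ N) (fun b => f a b)) := by
    intro b hb' a ha'
    have r1 := norm_sub_le_var (fun a => f a b) (mem_range.1 ha') (mem_range.1 ha0)
    have r2 := norm_sub_le_var (fun a => f a b0) (mem_range.1 ha') (mem_range.1 ha0)
    have r3 := hb b hb'
    have c1 := norm_sub_le_var (fun b => f a b) (mem_range.1 hb') (mem_range.1 hb0)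
    have c2 := norm_sub_le_var (fun b => f a0 b) (mem_range.1 hb') (mem_range.1 hb0)
    have c3 := ha a ha'
    simp only [Real.norm_eq_abs] at r1 r2 c1 c2
    have g1 : |g a b| ≤ 2 * var (2 ^ N) (fun a => f a b) := by
      have := abs_sub (f a b - f a0 b) (f a b0 - f a0 b0)
      simp only [g]; linarith
    have g2 : |g a b| ≤ 2 * var (2 ^ N) (fun b => f a b) := by
      have := abs_sub (f a b - f a b0) (f a0 b - f a0 b0)
      have e : g a b = (f a b - f a b0) - (f a0 b - f a0 b0) := by simp only [g]; ring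
      rw [e]; linarith
    rw [← sq_abs, sq]
    exact mul_le_mul g1 g2 (abs_nonneg _) ((abs_nonneg _).trans g1)
  refine (sum_le_sum fun b hb' => sum_le_sum fun a ha' => h2 b hb' a ha').trans ?_
  rw [← sum_mul_sum, ← mul_sum, ← mul_sum]
  change 2 * VH N f * (2 * VV N f) ≤ _
  nlinarith [sq_nonneg (VH N f - VV N f)]

/-- weight of scale `t` -/
noncomputable def wt (N t : ℕ) : ℝ := 1 / (2 ^ t * (2 ^ (N - t - 1)) ^ 2)

lemma wt_pos (N t : ℕ) : 0 < wt N t := by unfold wt; positivity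

lemma pow_split {N t : ℕ} (ht : t < N) : (2 : ℝ) ^ N = 2 * 2 ^ t * 2 ^ (N - t - 1) := by
  obtain ⟨k, rfl⟩ := Nat.exists_eq_add_of_lt ht
  have : t + k + 1 - t - 1 = k := by omega
  rw [this]; ring

lemma sum_fam_const (N t : ℕ) (x : ℝ) :
    ∑ _S ∈ fam N t, ∑ _T ∈ fam N t, x = (2 ^ (N - t - 1)) ^ 2 * x := by
  simp only [sum_const, card_fam, nsmul_eq_mul]
  push_cast; ring

lemma sum_wt_sq {N t : ℕ} (ht : t < N) :
    ∑ _S ∈ fam N t, ∑ _T ∈ fam N t, wt N t ^ 2 = 4 / (2 ^ N) ^ 2 := by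
  rw [sum_fam_const, pow_split ht, wt]
  field_simp
  norm_num

/-- weighted average over the scales in `I` -/
noncomputable def Av (N : ℕ) (I : Finset ℕ) (x : Finset ℕ → Finset ℕ → ℝ) : ℝ :=
  ∑ t ∈ I, ∑ S ∈ fam N t, ∑ T ∈ fam N t, wt N t * x S T

lemma Av_sq_le (N : ℕ) (I : Finset ℕ) (hI : ∀ t ∈ I, t < N) (x : Finset ℕ → Finset ℕ → ℝ) :
    Av N I x ^ 2 ≤ (I.card * (4 / (2 ^ N) ^ 2)) *
      ∑ t ∈ I, ∑ S ∈ fam N t, ∑ T ∈ fam N t, x S T ^ 2 := by
  have := sum_mul_sq_le_sq_mul_sq (I.sigma fun t => fam N t ×ˢ fam N t) (fun p => wt N p.1)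
    (fun p => x p.2.1 p.2.2)
  simp only [sum_sigma, sum_product] at this
  rw [sum_congr rfl (fun t ht => sum_wt_sq (hI t ht)), sum_const, nsmul_eq_mul] at this
  exact this

lemma Av_mono {N : ℕ} {I : Finset ℕ} {x y : Finset ℕ → Finset ℕ → ℝ}
    (h : ∀ t ∈ I, ∀ S ∈ fam N t, ∀ T ∈ fam N t, x S T ≤ y S T) : Av N I x ≤ Av N I y := by
  unfold Av
  apply sum_le_sum; intro t ht
  apply sum_le_sum; intro S hS
  apply sum_le_sum; intro T hT
  exact mul_le_mul_of_nonneg_left (h t ht S hS T hT) (wt_pos N t).le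

lemma Av_add (N : ℕ) (I : Finset ℕ) (x y : Finset ℕ → Finset ℕ → ℝ) :
    Av N I (fun S T => x S T + y S T) = Av N I x + Av N I y := by
  unfold Av
  simp only [mul_add, sum_add_distrib]

lemma Av_sum {ι : Type*} (N : ℕ) (I : Finset ℕ) (F : Finset ι) (x : ι → Finset ℕ → Finset ℕ → ℝ) :
    Av N I (fun S T => ∑ i ∈ F, x i S T) = ∑ i ∈ F, Av N I (x i) := by
  classical
  induction F using Finset.induction_on with
  | empty => simp [Av]
  | insert i F hi ih =>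
    simp only [sum_insert hi]
    rw [Av_add, ih]

lemma Av_le_of_pow {N : ℕ} {I : Finset ℕ} {x : Finset ℕ → Finset ℕ → ℝ} {D : ℝ}
    (h : ∀ t ∈ I, ∀ S ∈ fam N t, ∀ T ∈ fam N t, x S T ≤ 2 ^ t * D) : Av N I x ≤ I.card * D := by
  unfold Av
  rw [← nsmul_eq_mul, ← sum_const]
  apply sum_le_sum; intro t ht
  have : ∑ S ∈ fam N t, ∑ T ∈ fam N t, wt N t * x S T ≤
      ∑ _S ∈ fam N t, ∑ _T ∈ fam N t, wt N t * (2 ^ t * D) := by
    apply sum_le_sum; intro S hS
    apply sum_le_sum; intro T hT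
    exact mul_le_mul_of_nonneg_left (h t ht S hS T hT) (wt_pos N t).le
  refine this.trans (le_of_eq ?_)
  rw [sum_fam_const, wt]
  field_simp

lemma Av_ge_of_pow {N : ℕ} {I : Finset ℕ} {x : Finset ℕ → Finset ℕ → ℝ} {D : ℝ}
    (h : ∀ t ∈ I, ∀ S ∈ fam N t, ∀ T ∈ fam N t, 2 ^ t * D ≤ x S T) : I.card * D ≤ Av N I x := by
  have := Av_le_of_pow (N := N) (I := I) (x := fun S T => - x S T) (D := - D) (by
    intro t ht S hS T hT
    have := h t ht S hS T hT
    linarith)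
  have e : Av N I (fun S T => - x S T) = - Av N I x := by
    unfold Av; simp only [mul_neg, sum_neg_distrib]
  rw [e] at this
  linarith

lemma VH_nonneg {Y : Type*} [NormedAddCommGroup Y] (N : ℕ) (F : ℕ → ℕ → Y) : 0 ≤ VH N F :=
  sum_nonneg fun _ _ => var_nonneg _ _

lemma VV_nonneg {Y : Type*} [NormedAddCommGroup Y] (N : ℕ) (F : ℕ → ℕ → Y) : 0 ≤ VV N F :=
  sum_nonneg fun _ _ => var_nonneg _ _

lemma scalar_L1 (N J : ℕ) (I : Finset ℕ) (hI : ∀ t ∈ I, t < N) (hJ : I.card ≤ J ^ 2)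
    (f : ℕ → ℕ → ℝ) : Av N I (fun S T => |co N S T f|) ≤ 2 * J * (VH N f + VV N f) := by
  have h1 := Av_sq_le N I hI (fun S T => |co N S T f|)
  simp only [sq_abs] at h1
  have h2 := sobolev N I hI f
  have h3 : (I.card : ℝ) ≤ (J : ℝ) ^ 2 := by exact_mod_cast hJ
  have h0 : 0 ≤ VH N f + VV N f := add_nonneg (VH_nonneg N f) (VV_nonneg N f)
  have h4 : Av N I (fun S T => |co N S T f|) ^ 2 ≤ (2 * J * (VH N f + VV N f)) ^ 2 := by
    refine h1.trans ((mul_le_mul (mul_le_mul_of_nonneg_right h3 (by positivity)) h2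
      (sum_nonneg fun _ _ => sum_nonneg fun _ _ => sum_nonneg fun _ _ => by positivity)
      (by positivity)).trans (le_of_eq ?_))
    field_simp
    ring
  exact le_trans (le_abs_self _) (abs_le_of_sq_le_sq' h4 (by positivity) |> abs_le.2)

lemma scalar_fin {N t : ℕ} (ht : t < N) (G : ℕ → ℕ → ℝ) (L : ℝ) (hL : 0 ≤ L)
    (hG : ∀ a a' b, |G a b - G a' b| ≤ L * |(a : ℝ) - a'|) :
    Av N {t} (fun S T => |co N S T G|) ≤ 2 * 2 ^ N * 2 ^ t * L := by
  let G' : ℕ → ℕ → ℝ := fun a b => (1 / 2 : ℝ) • (G a b - G (fl t a) b)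
  have hI : ∀ u ∈ ({t} : Finset ℕ), u < N := by simpa using ht
  have e : Av N {t} (fun S T => |co N S T G|) = Av N {t} (fun S T => |co N S T G'|) := by
    unfold Av
    simp only [sum_singleton]
    apply sum_congr rfl; intro S hS
    apply sum_congr rfl; intro T _
    rw [co_fl (mem_fam hS ht).1 ht]
  rw [e]
  have h1 := Av_sq_le N {t} hI (fun S T => |co N S T G'|)
  simp only [sq_abs, card_singleton, Nat.cast_one, one_mul] at h1
  have h2 := bessel_all N {t} hI (fun S T => co N S T G')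
  rw [parseval2] at h2
  have h3 : ∀ b ∈ range (2 ^ N), ∀ a ∈ range (2 ^ N), G' a b ^ 2 ≤ (L * 2 ^ t) ^ 2 := by
    intro b _ a _
    have c := fl_close t a
    have c1 : ((fl t a : ℕ) : ℝ) ≤ a + 2 ^ (t + 1) := by exact_mod_cast c.1
    have c2 : (a : ℝ) ≤ (fl t a : ℕ) + 2 ^ (t + 1) := by exact_mod_cast c.2
    have c3 : |(a : ℝ) - (fl t a : ℕ)| ≤ 2 * 2 ^ t := by
      rw [pow_succ] at c1 c2
      exact abs_le.2 ⟨by linarith, by linarith⟩
    have c4 := (hG a (fl t a) b).trans (mul_le_mul_of_nonneg_left c3 hL)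
    rw [← sq_abs]
    apply pow_le_pow_left₀ (abs_nonneg _)
    simp only [G', smul_eq_mul, abs_mul]
    rw [abs_of_pos (by norm_num : (0 : ℝ) < 1 / 2)]
    linarith
  have h4 := sum_le_sum fun b hb => sum_le_sum fun a ha => h3 b hb a ha
  simp only [sum_const, card_range, nsmul_eq_mul] at h4
  push_cast at h4
  have h5 : Av N {t} (fun S T => |co N S T G'|) ^ 2 ≤ (2 * 2 ^ N * 2 ^ t * L) ^ 2 := by
    refine h1.trans ((mul_le_mul_of_nonneg_left (h2.trans
      (mul_le_mul_of_nonneg_left h4 (by positivity))) (by positivity)).trans (le_of_eq ?_))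
    field_simp
    ring
  exact le_trans (le_abs_self _) (abs_le_of_sq_le_sq' h5 (by positivity) |> abs_le.2)

lemma scalar_fin' {N m : ℕ} {I : Finset ℕ} (hI : ∀ t ∈ I, t < N) (hm : ∀ t ∈ I, t ≤ m)
    (G : ℕ → ℕ → ℝ) (L : ℝ) (hL : 0 ≤ L)
    (hG : ∀ a a' b, |G a b - G a' b| ≤ L * |(a : ℝ) - a'|) :
    Av N I (fun S T => |co N S T G|) ≤ I.card * (2 * 2 ^ N * 2 ^ m * L) := by
  rw [← nsmul_eq_mul, ← sum_const]
  unfold Av
  apply sum_le_sum; intro t ht
  have h1 := scalar_fin (hI t ht) G L hL hG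
  unfold Av at h1
  rw [sum_singleton] at h1
  refine h1.trans ?_
  have : (2 : ℝ) ^ t ≤ 2 ^ m := pow_le_pow_right₀ (by norm_num) (hm t ht)
  gcongr

section L1
variable {Ω : Type*} [MeasurableSpace Ω] {ν : Measure Ω}

lemma coe_co (N : ℕ) (S T : Finset ℕ) (u : ℕ → ℕ → Lp ℝ 1 ν) :
    (co N S T u : Lp ℝ 1 ν) =ᵐ[ν] fun ω => co N S T (fun a b => u a b ω) := by
  unfold co
  have h1 : ∀ b, ((∑ a ∈ range (2 ^ N), w S a • u a b : Lp ℝ 1 ν) : Ω → ℝ) =ᵐ[ν]
      fun ω => ∑ a ∈ range (2 ^ N), w S a • u a b ω := by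
    intro b
    have := (ae_ball_iff (range (2 ^ N)).countable_toSet).2
      (fun a (_ : a ∈ (range (2 ^ N) : Set ℕ)) => Lp.coeFn_smul (w S a) (u a b))
    filter_upwards [Lp.coeFn_fun_finsetSum (range (2 ^ N)) (fun a => w S a • u a b), this]
      with ω h2 h3
    rw [h2]
    exact sum_congr rfl fun a ha => h3 a ha
  have h4 := (ae_ball_iff (range (2 ^ N)).countable_toSet).2
      (fun b (_ : b ∈ (range (2 ^ N) : Set ℕ)) =>
        Lp.coeFn_smul (w T b) (∑ a ∈ range (2 ^ N), w S a • u a b))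
  filter_upwards [Lp.coeFn_fun_finsetSum (range (2 ^ N))
    (fun b => w T b • ∑ a ∈ range (2 ^ N), w S a • u a b), h4, ae_all_iff.2 h1] with ω h2 h3 h5
  rw [h2]
  apply sum_congr rfl
  intro b hb
  rw [h3 b hb, Pi.smul_apply, h5 b]

lemma integral_sum_norm {ι : Type*} (s : Finset ι) (c : ι → ℝ) (x : ι → Lp ℝ 1 ν) :
    ∑ i ∈ s, c i * ‖x i‖ = ∫ ω, ∑ i ∈ s, c i * |x i ω| ∂ν := by
  rw [integral_finsetSum _ (fun i _ => (L1.integrable_coeFn (x i)).abs.const_mul (c i))]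
  apply sum_congr rfl; intro i _
  rw [integral_const_mul, L1.norm_eq_integral_norm]
  rfl

lemma vec_L1 (N J : ℕ) (I : Finset ℕ) (hI : ∀ t ∈ I, t < N) (hJ : I.card ≤ J ^ 2)
    (u : ℕ → ℕ → Lp ℝ 1 ν) : Av N I (fun S T => ‖co N S T u‖) ≤ 2 * J * (VH N u + VV N u) := by
  let A := I.sigma fun t => fam N t ×ˢ fam N t
  let B := range (2 ^ N) ×ˢ range (2 ^ N)
  have e1 : Av N I (fun S T => ‖co N S T u‖) =
      ∑ p ∈ A, wt N p.1 * ‖co N p.2.1 p.2.2 u‖ := by
    simp only [A, sum_sigma, sum_product, Av]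
  have e2 : 2 * J * (VH N u + VV N u) =
      ∑ p ∈ B, (2 * J : ℝ) * ‖u (p.2 + 1) p.1 - u p.2 p.1‖ +
      ∑ p ∈ B, (2 * J : ℝ) * ‖u p.1 (p.2 + 1) - u p.1 p.2‖ := by
    simp only [B, sum_product, VH, VV, var, ← mul_sum, mul_add]
  rw [e1, e2, integral_sum_norm, integral_sum_norm, integral_sum_norm, ← integral_add
    (integrable_finsetSum _ (fun i _ => (L1.integrable_coeFn _).abs.const_mul _))
    (integrable_finsetSum _ (fun i _ => (L1.integrable_coeFn _).abs.const_mul _))]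
  apply integral_mono_ae
    (integrable_finsetSum _ (fun i _ => (L1.integrable_coeFn _).abs.const_mul _))
    ((integrable_finsetSum _ (fun i _ => (L1.integrable_coeFn _).abs.const_mul _)).add
    (integrable_finsetSum _ (fun i _ => (L1.integrable_coeFn _).abs.const_mul _)))
  have h1 := ae_all_iff.2 fun p : Finset ℕ × Finset ℕ => coe_co N p.1 p.2 u
  have h2 := ae_all_iff.2 fun p : ℕ × ℕ => Lp.coeFn_sub (u (p.2 + 1) p.1) (u p.2 p.1)
  have h3 := ae_all_iff.2 fun p : ℕ × ℕ => Lp.coeFn_sub (u p.1 (p.2 + 1)) (u p.1 p.2)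
  filter_upwards [h1, h2, h3] with ω h1 h2 h3
  have h4 := scalar_L1 N J I hI hJ (fun a b => u a b ω)
  have e3 : Av N I (fun S T => |co N S T (fun a b => u a b ω)|) =
      ∑ p ∈ A, wt N p.1 * |(co N p.2.1 p.2.2 u : Lp ℝ 1 ν) ω| := by
    simp only [A, sum_sigma, sum_product, Av]
    apply sum_congr rfl; intro t _
    apply sum_congr rfl; intro S _
    apply sum_congr rfl; intro T _
    rw [h1 (S, T)]
  have e4 : 2 * J * (VH N (fun a b => u a b ω) + VV N (fun a b => u a b ω)) =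
      ∑ p ∈ B, (2 * J : ℝ) * |(u (p.2 + 1) p.1 - u p.2 p.1 : Lp ℝ 1 ν) ω| +
      ∑ p ∈ B, (2 * J : ℝ) * |(u p.1 (p.2 + 1) - u p.1 p.2 : Lp ℝ 1 ν) ω| := by
    simp only [h2, h3, Pi.sub_apply]
    simp only [B, sum_product, VH, VV, var, ← mul_sum, mul_add, Real.norm_eq_abs]
  rw [e3, e4] at h4
  exact h4

end L1

lemma co_tent {N t : ℕ} (S T : Finset ℕ) :
    co N S T (fun a b => (w S a * tent t a) * (w T b * tent t b)) =
      (∑ a ∈ range (2 ^ N), tent t a) ^ 2 := by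
  unfold co
  simp only [smul_eq_mul]
  rw [sq, sum_mul_sum, sum_comm]
  apply sum_congr rfl; intro b _
  rw [mul_sum]
  apply sum_congr rfl; intro a _
  have h1 := w_mul_self S a
  have h2 := w_mul_self T b
  calc w T b * (w S a * (w S a * tent t a * (w T b * tent t b)))
      = (w S a * w S a) * (w T b * w T b) * (tent t a * tent t b) := by ring
    _ = tent t a * tent t b := by rw [h1, h2]; ring

lemma lower {Y : Type*} [NormedAddCommGroup Y] [NormedSpace ℝ Y] {N t : ℕ} (h2 : 2 ≤ t)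
    (ht : t < N) {S T : Finset ℕ} (hS : S ∈ fam N t) (hT : T ∈ fam N t) (Ψ : ℕ → ℕ → Y)
    (hlow : ∀ (v : ℕ → ℕ → ℝ) (B : ℝ), 0 ≤ B →
      (∀ a b a' b', |v a b - v a' b'| ≤ B * (|(a : ℝ) - a'| + |(b : ℝ) - b'|)) →
      co N S T v ≤ 2 * B * ‖co N S T Ψ‖) :
    2 ^ t * ((2 ^ N) ^ 2 / 64) ≤ ‖co N S T Ψ‖ := by
  have hb : ∀ (S : Finset ℕ) a, |w S a * tent t a| ≤ 2 ^ t / 2 := by
    intro S a
    rw [abs_mul, abs_w, one_mul, abs_of_nonneg (tent_nonneg t a)]
    exact tent_le t a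
  have h1 := hlow (fun a b => (w S a * tent t a) * (w T b * tent t b)) (2 ^ t / 2) (by positivity)
    (by
      intro a b a' b'
      have l1 := tent_lip (mem_fam hS ht).2.1 a a'
      have l2 := tent_lip (mem_fam hT ht).2.1 b b'
      have b1 := hb S a'
      have b2 := hb T b
      have e : w S a * tent t a * (w T b * tent t b) - w S a' * tent t a' * (w T b' * tent t b') =
          (w S a * tent t a - w S a' * tent t a') * (w T b * tent t b) +
          (w S a' * tent t a') * (w T b * tent t b - w T b' * tent t b') := by ring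
      rw [e]
      refine (abs_add_le _ _).trans ?_
      rw [abs_mul, abs_mul (w S a' * tent t a')]
      have m1 := mul_le_mul l1 b2 (abs_nonneg _) (abs_nonneg _)
      have m2 := mul_le_mul b1 l2 (abs_nonneg _) (by positivity)
      linarith)
  rw [co_tent] at h1
  have h3 := sum_tent h2 ht
  have h4 : ((2 : ℝ) ^ N * 2 ^ t / 8) ^ 2 ≤ (∑ a ∈ range (2 ^ N), tent t a) ^ 2 :=
    pow_le_pow_left₀ (by positivity) h3 2
  have h5 : (0 : ℝ) < 2 ^ t := by positivity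
  have h6 : 2 ^ t * (2 ^ t * (((2 : ℝ) ^ N) ^ 2 / 64)) ≤ 2 ^ t * ‖co N S T Ψ‖ := by
    nlinarith
  exact le_of_mul_le_mul_left h6 h5

theorem disc {Y Z : Type*} [NormedAddCommGroup Y] [NormedSpace ℝ Y] [NormedAddCommGroup Z]
    [NormedSpace ℝ Z] {Ω : Type*} [MeasurableSpace Ω] {ν : Measure Ω} {ι : Type*}
    (Ψ : ℕ → ℕ → Y) (S : Y →L[ℝ] Lp ℝ 1 ν) (U : Y →L[ℝ] Z) (F : Finset ι)
    (lam : ι → Y →L[ℝ] ℝ)
    (hdec : ∀ y, ‖y‖ ≤ ‖S y‖ + ∑ i ∈ F, |lam i y| + ‖U y‖)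
    (L : ℝ) (hL : 0 ≤ L) (hH : ∀ a a' b, ‖Ψ a b - Ψ a' b‖ ≤ L * |(a : ℝ) - a'|)
    (hV : ∀ a b, ‖Ψ a (b + 1) - Ψ a b‖ ≤ L) (J N : ℕ) (hJ : 0 < J) (hN : J ^ 2 + 2 ≤ N)
    (hlow : ∀ t, t < N → ∀ A ∈ fam N t, ∀ T ∈ fam N t, ∀ (v : ℕ → ℕ → ℝ) (B : ℝ), 0 ≤ B →
      (∀ a b a' b', |v a b - v a' b'| ≤ B * (|(a : ℝ) - a'| + |(b : ℝ) - b'|)) →
      co N A T v ≤ 2 * B * ‖co N A T Ψ‖)
    (hJ' : 1024 * (‖S‖ * L) ≤ J)
    (hN' : 512 * 2 ^ (J ^ 2 + 2) * (L * ∑ i ∈ F, ‖lam i‖) ≤ 2 ^ N) :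
    (2 ^ N) ^ 2 / 384 ≤ VH N (fun a b => U (Ψ a b)) := by
  set I := Ico 2 (J ^ 2 + 2) with hIdef
  have hI : ∀ t ∈ I, t < N := fun t ht => lt_of_lt_of_le (mem_Ico.1 ht).2 hN
  have hcard : I.card = J ^ 2 := by rw [hIdef, Nat.card_Ico]; omega
  have hc : (I.card : ℝ) = (J : ℝ) ^ 2 := by exact_mod_cast hcard
  have h1 : I.card * (((2 : ℝ) ^ N) ^ 2 / 64) ≤ Av N I (fun A T => ‖co N A T Ψ‖) :=
    Av_ge_of_pow fun t ht A hA T hT =>
      lower (mem_Ico.1 ht).1 (hI t ht) hA hT Ψ (hlow t (hI t ht) A hA T hT)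
  have h2 : Av N I (fun A T => ‖co N A T Ψ‖) ≤
      Av N I (fun A T => ‖co N A T (fun a b => S (Ψ a b))‖ +
        ∑ i ∈ F, |co N A T (fun a b => lam i (Ψ a b))| + ‖co N A T (fun a b => U (Ψ a b))‖) := by
    apply Av_mono
    intro t _ A _ T _
    have := hdec (co N A T Ψ)
    simpa only [map_co] using this
  rw [Av_add, Av_add, Av_sum] at h2
  have h3 := vec_L1 N J I hI hcard.le (fun a b => S (Ψ a b))
  have h3a : VH N (fun a b => S (Ψ a b)) ≤ (2 ^ N) ^ 2 * (‖S‖ * L) := by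
    have : ∀ b ∈ range (2 ^ N), var (2 ^ N) (fun a => S (Ψ a b)) ≤ 2 ^ N * (‖S‖ * L) := by
      intro b _
      have : ∀ a ∈ range (2 ^ N), ‖S (Ψ (a + 1) b) - S (Ψ a b)‖ ≤ ‖S‖ * L := by
        intro a _
        rw [← map_sub]
        refine (S.le_opNorm _).trans (mul_le_mul_of_nonneg_left ?_ (norm_nonneg _))
        simpa using hH (a + 1) a b
      simpa [var] using sum_le_sum this
    have := sum_le_sum this
    simp only [sum_const, card_range, nsmul_eq_mul] at this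
    push_cast at this
    unfold VH; linarith
  have h3b : VV N (fun a b => S (Ψ a b)) ≤ (2 ^ N) ^ 2 * (‖S‖ * L) := by
    have : ∀ a ∈ range (2 ^ N), var (2 ^ N) (fun b => S (Ψ a b)) ≤ 2 ^ N * (‖S‖ * L) := by
      intro a _
      have : ∀ b ∈ range (2 ^ N), ‖S (Ψ a (b + 1)) - S (Ψ a b)‖ ≤ ‖S‖ * L := by
        intro b _
        rw [← map_sub]
        exact (S.le_opNorm _).trans (mul_le_mul_of_nonneg_left (hV a b) (norm_nonneg _))
      simpa [var] using sum_le_sum this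
    have := sum_le_sum this
    simp only [sum_const, card_range, nsmul_eq_mul] at this
    push_cast at this
    unfold VV; linarith
  have h4 : ∑ i ∈ F, Av N I (fun A T => |co N A T (fun a b => lam i (Ψ a b))|) ≤
      ∑ i ∈ F, I.card * (2 * 2 ^ N * 2 ^ (J ^ 2 + 2) * (‖lam i‖ * L)) := by
    apply sum_le_sum; intro i _
    apply scalar_fin' hI (fun t ht => (mem_Ico.1 ht).2.le) _ _ (by positivity)
    intro a a' b
    rw [← map_sub, mul_assoc]
    exact ((lam i).le_opNorm _).trans (mul_le_mul_of_nonneg_left (hH a a' b) (norm_nonneg _))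
  rw [← mul_sum, ← mul_sum, ← sum_mul] at h4
  have h5 : Av N I (fun A T => ‖co N A T (fun a b => U (Ψ a b))‖) ≤
      I.card * (3 * VH N (fun a b => U (Ψ a b))) := by
    apply Av_le_of_pow
    intro t ht A hA T _
    have := norm_co_le (mem_fam hA (hI t ht)).1 (hI t ht) T (fun a b => U (Ψ a b))
    linarith
  rw [hc] at h1 h4 h5
  have hJ0 : (0 : ℝ) < J := by exact_mod_cast hJ
  set n : ℝ := 2 ^ N with hn
  have hn0 : 0 < n := by positivity
  set V := VH N (fun a b => U (Ψ a b))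
  set Λ := ∑ i ∈ F, ‖lam i‖
  have k1 : 2 * J * (VH N (fun a b => S (Ψ a b)) + VV N (fun a b => S (Ψ a b))) ≤
      (J : ℝ) ^ 2 * (n ^ 2 / 256) := by
    have : VH N (fun a b => S (Ψ a b)) + VV N (fun a b => S (Ψ a b)) ≤ n ^ 2 * (J / 512) := by
      have : n ^ 2 * (‖S‖ * L) ≤ n ^ 2 * (J / 1024) :=
        mul_le_mul_of_nonneg_left (by linarith) (by positivity)
      linarith
    calc _ ≤ 2 * J * (n ^ 2 * (J / 512)) := mul_le_mul_of_nonneg_left this (by positivity)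
      _ = _ := by ring
  have k2 : (J : ℝ) ^ 2 * (2 * n * 2 ^ (J ^ 2 + 2) * (Λ * L)) ≤ (J : ℝ) ^ 2 * (n ^ 2 / 256) := by
    apply mul_le_mul_of_nonneg_left _ (by positivity)
    have : n * (512 * 2 ^ (J ^ 2 + 2) * (L * Λ)) ≤ n * n := mul_le_mul_of_nonneg_left hN' hn0.le
    nlinarith
  have k3 : (J : ℝ) ^ 2 * (n ^ 2 / 384) ≤ (J : ℝ) ^ 2 * V := by nlinarith
  exact le_of_mul_le_mul_left k3 (by positivity)

end Pool.Agent.H686Z.Walsh
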