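import Pool.Agent.H686Z.Free.Defs

set_option autoImplicit false

namespace Pool.Agent.H686Z.Free

open Set Filter Topology Finset

variable {M : Type} [MetricSpace M]
variable {X : Type} [NormedAddCommGroup X] [NormedSpace ℝ X]

/-- what is used about a free space -/
structure IsFree (o : M) (δ : M → X) : Prop where
  zero : δ o = 0
  lip : ∀ y z, ‖δ y - δ z‖ ≤ dist y z
  dense : Dense ((Submodule.span ℝ (range δ) : Submodule ℝ X) : Set X)
  ext : ∀ (f : M → ℝ) (C : ℝ), 0 ≤ C → (∀ u v, |f u - f v| ≤ C * dist u v) →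
    ∃ φ : X →L[ℝ] ℝ, ‖φ‖ ≤ C ∧ ∀ x, φ (δ x) = f x - f o

variable {o : M} {δ : M → X}

lemma IsFree.lin {Z : Type} [NormedAddCommGroup Z] [NormedSpace ℝ Z] [CompleteSpace Z]
    (h : IsFree o δ) (g : M → Z) (C : ℝ) (hC : 0 ≤ C)
    (hg : ∀ u v, ‖g u - g v‖ ≤ C * dist u v) :
    ∃ T : X →L[ℝ] Z, ‖T‖ ≤ C ∧ ∀ x, T (δ x) = g x - g o := by
  let e : (M →₀ ℝ) →ₗ[ℝ] X := Finsupp.linearCombination ℝ δ
  let f : (M →₀ ℝ) →ₗ[ℝ] Z := Finsupp.linearCombination ℝ (fun x : M => g x - g o)
  have hd : DenseRange e := by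
    have : Set.range e = ((Submodule.span ℝ (Set.range δ) : Submodule ℝ X) : Set X) := by
      rw [← Finsupp.range_linearCombination]; rfl
    rw [DenseRange, this]
    exact h.dense
  have hb : ∀ a, ‖f a‖ ≤ C * ‖e a‖ := by
    intro a
    obtain ⟨ψ, hψ1, hψ2⟩ := exists_dual_vector'' ℝ (f a)
    obtain ⟨φ, hφ1, hφ2⟩ := h.ext (fun x => ψ (g x)) C hC (fun u v => by
      rw [← map_sub]
      refine (ψ.le_opNorm _).trans ?_
      nlinarith [hg u v, norm_nonneg (g u - g v), norm_nonneg ψ])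
    have : (φ : X →ₗ[ℝ] ℝ) ∘ₗ e = (ψ : Z →ₗ[ℝ] ℝ) ∘ₗ f := by
      apply Finsupp.lhom_ext'
      intro x
      ext
      simp [e, f, hφ2 x]
    have h2 : φ (e a) = ψ (f a) := LinearMap.congr_fun this a
    have h3 : ‖f a‖ = φ (e a) := by rw [h2, hψ2]; rfl
    rw [h3]
    exact (le_abs_self _).trans ((φ.le_opNorm _).trans
      (mul_le_mul_of_nonneg_right hφ1 (norm_nonneg _)))
  refine ⟨f.extendOfNorm e, LinearMap.opNorm_extendOfNorm_le hd hC hb, fun x => ?_⟩
  have := LinearMap.extendOfNorm_eq hd ⟨C, hb⟩ (Finsupp.single x 1)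
  simpa [e, f] using this

lemma IsFree.ext_eq {Z : Type} [NormedAddCommGroup Z] [NormedSpace ℝ Z] (h : IsFree o δ)
    {A B : X →L[ℝ] Z} (hAB : ∀ x, A (δ x) = B (δ x)) : A = B := by
  apply ContinuousLinearMap.ext_on h.dense
  rintro _ ⟨x, rfl⟩
  exact hAB x

lemma IsFree.norm_le (h : IsFree o δ) (φ : X →L[ℝ] ℝ) (C : ℝ) (hC : 0 ≤ C)
    (hφ : ∀ u v, |φ (δ u) - φ (δ v)| ≤ C * dist u v) : ‖φ‖ ≤ C := by
  obtain ⟨φ', h1, h2⟩ := h.ext (fun x => φ (δ x)) C hC hφ
  have : φ' = φ := h.ext_eq fun x => by rw [h2 x, h.zero, map_zero, sub_zero]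
  rwa [← this]

lemma IsFree.sum_norm_le {Z : Type} [NormedAddCommGroup Z] [NormedSpace ℝ Z] (h : IsFree o δ)
    {ι : Type} (F : Finset ι) (A : ι → X →L[ℝ] Z) (C : ℝ) (hC : 0 ≤ C)
    (hA : ∀ u v, ∑ i ∈ F, ‖A i (δ u) - A i (δ v)‖ ≤ C * dist u v) (γ : X) :
    ∑ i ∈ F, ‖A i γ‖ ≤ C * ‖γ‖ := by
  choose ψ hψ1 hψ2 using fun i => exists_dual_vector'' ℝ (A i γ)
  let φ : X →L[ℝ] ℝ := ∑ i ∈ F, (ψ i).comp (A i)
  have hφ : ∀ x, φ x = ∑ i ∈ F, ψ i (A i x) := by
    intro x; simp [φ]
  have h1 : ‖φ‖ ≤ C := by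
    apply h.norm_le φ C hC
    intro u v
    rw [hφ, hφ, ← sum_sub_distrib]
    refine (abs_sum_le_sum_abs _ _).trans (le_trans (sum_le_sum fun i _ => ?_) (hA u v))
    rw [← map_sub]
    refine ((ψ i).le_opNorm _).trans ?_
    nlinarith [hψ1 i, norm_nonneg (A i (δ u) - A i (δ v))]
  have h2 : ∑ i ∈ F, ‖A i γ‖ = φ γ := by
    rw [hφ]
    exact sum_congr rfl fun i _ => (hψ2 i).symm
  rw [h2]
  exact (le_abs_self _).trans ((φ.le_opNorm _).trans
      (mul_le_mul_of_nonneg_right h1 (norm_nonneg _)))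

lemma IsFree.tendsto (h : IsFree o δ) (P : ℕ → X →L[ℝ] X) (C : ℝ) (hP : ∀ k, ‖P k‖ ≤ C)
    (hδ : ∀ x, ∀ᶠ k in atTop, P k (δ x) = δ x) (γ : X) :
    Tendsto (fun k => P k γ) atTop (𝓝 γ) := by
  have hC : 0 ≤ C := (norm_nonneg _).trans (hP 0)
  have hs : ∀ y ∈ Submodule.span ℝ (Set.range δ), Tendsto (fun k => P k y) atTop (𝓝 y) := by
    intro y hy
    induction hy using Submodule.span_induction with
    | mem x hx =>
      obtain ⟨x, rfl⟩ := hx
      exact tendsto_const_nhds.congr' ((hδ x).mono fun k hk => hk.symm)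
    | zero => simp
    | add x y _ _ hx hy => simpa using hx.add hy
    | smul a x _ hx => simpa using hx.const_smul a
  rw [Metric.tendsto_atTop]
  intro η hη
  obtain ⟨y, hy, hxy⟩ := Metric.mem_closure_iff.1 (h.dense γ) (η / (2 * (C + 1))) (by positivity)
  obtain ⟨n0, hn0⟩ := Metric.tendsto_atTop.1 (hs y hy) (η / 2) (by positivity)
  refine ⟨n0, fun n hn => ?_⟩
  have a1 := hn0 n hn
  rw [dist_eq_norm] at a1 hxy ⊢
  have e : P n γ - γ = P n (γ - y) + (P n y - y) - (γ - y) := by rw [map_sub]; abel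
  have a2 : ‖P n (γ - y)‖ ≤ C * ‖γ - y‖ :=
    ((P n).le_opNorm _).trans (mul_le_mul_of_nonneg_right (hP n) (norm_nonneg _))
  have a3 := (norm_sub_le _ (γ - y)).trans (add_le_add (norm_add_le (P n (γ - y)) (P n y - y)) le_rfl)
  rw [lt_div_iff₀ (by positivity)] at hxy
  rw [e]
  nlinarith

lemma IsFree.finite_rank (h : IsFree o δ) (A : X →L[ℝ] X) (s : Set X) (hs : s.Finite)
    (hA : ∀ x, A (δ x) ∈ Submodule.span ℝ s) :
    ∃ (m : ℕ) (lam : Fin m → X →L[ℝ] ℝ), ∀ γ, ‖A γ‖ ≤ ∑ i, |lam i γ| := by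
  let W := Submodule.span ℝ s
  haveI : FiniteDimensional ℝ W := FiniteDimensional.span_of_finite ℝ hs
  have hW : ∀ γ, A γ ∈ W := by
    intro γ
    have h1 : Submodule.span ℝ (Set.range δ) ≤ W.comap (A : X →ₗ[ℝ] X) := by
      rw [Submodule.span_le]
      rintro _ ⟨x, rfl⟩
      exact hA x
    have h2 : IsClosed ((W.comap (A : X →ₗ[ℝ] X) : Submodule ℝ X) : Set X) :=
      (Submodule.closed_of_finiteDimensional W).preimage A.continuous
    exact closure_minimal h1 h2 (h.dense γ)
  let b := Module.finBasis ℝ W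
  let A' : X →L[ℝ] W := A.codRestrict W hW
  refine ⟨_, fun i => ‖b i‖ • (LinearMap.toContinuousLinearMap (b.coord i)).comp A', fun γ => ?_⟩
  have h1 : ‖A γ‖ = ‖A' γ‖ := rfl
  rw [h1, ← b.sum_repr (A' γ)]
  refine (norm_sum_le _ _).trans (le_of_eq ?_)
  apply sum_congr rfl
  intro i _
  simp [norm_smul, abs_mul, mul_comm]

/-- cutoff functions -/
noncomputable def chi (o : M) (k : ℕ) (x : M) : ℝ := max 0 (min 1 (2 - dist x o / 2 ^ k))

lemma chi_nonneg (k : ℕ) (x : M) : 0 ≤ chi o k x := le_max_left _ _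

lemma chi_le_one (k : ℕ) (x : M) : chi o k x ≤ 1 := max_le zero_le_one (min_le_left _ _)

lemma chi_mono (k : ℕ) (x : M) : chi o k x ≤ chi o (k + 1) x := by
  unfold chi
  have : dist x o / 2 ^ (k + 1) ≤ dist x o / 2 ^ k :=
    div_le_div_of_nonneg_left dist_nonneg (by positivity)
      (pow_le_pow_right₀ (by norm_num) (Nat.le_succ k))
  exact max_le_max le_rfl (min_le_min le_rfl (by linarith))

lemma chi_eq_zero {k : ℕ} {x : M} (h : 2 ≤ dist x o / 2 ^ k) : chi o k x = 0 := by
  unfold chi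
  exact max_eq_left ((min_le_right _ _).trans (by linarith))

lemma chi_eq_one {k : ℕ} {x : M} (h : dist x o ≤ 2 ^ k) : chi o k x = 1 := by
  unfold chi
  have : dist x o / 2 ^ k ≤ 1 := (div_le_one (by positivity)).2 h
  rw [min_eq_left (by linarith), max_eq_right zero_le_one]

lemma chi_lip (k : ℕ) (x y : M) : |chi o k x - chi o k y| ≤ dist x y / 2 ^ k := by
  unfold chi
  refine (abs_max_sub_max_le_max _ _ _ _).trans (max_le (by simp; positivity) ?_)
  refine (abs_min_sub_min_le_max _ _ _ _).trans (max_le (by simp; positivity) ?_)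
  rw [sub_sub_sub_cancel_left, ← sub_div, abs_div, abs_of_pos (by positivity : (0 : ℝ) < 2 ^ k),
    abs_sub_comm]
  exact div_le_div_of_nonneg_right (abs_dist_sub_le x y o) (by positivity)

lemma chi_step {x y : M} (hxy : dist x o ≤ dist y o) (k : ℕ) :
    |chi o k x - chi o k y| * dist x o ≤
      dist x y * (min 4 (2 * (dist x o / 2 ^ k)) - min 4 (2 * (dist x o / 2 ^ (k + 1)))) := by
  have e : 2 * (dist x o / 2 ^ (k + 1)) = dist x o / 2 ^ k := by
    rw [pow_succ]; field_simp
  rw [e]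
  set a := dist x o / 2 ^ k with ha
  have ha0 : 0 ≤ a := by positivity
  by_cases h : 2 ≤ a
  · have h' : 2 ≤ dist y o / 2 ^ k :=
      h.trans (div_le_div_of_nonneg_right hxy (by positivity))
    rw [chi_eq_zero h, chi_eq_zero h', sub_zero, abs_zero, zero_mul]
    apply mul_nonneg dist_nonneg
    rw [min_eq_left (by linarith : (4 : ℝ) ≤ 2 * a)]
    linarith [min_le_left 4 a]
  · push Not at h
    rw [min_eq_right (by linarith : 2 * a ≤ 4), min_eq_right (by linarith : a ≤ 4)]
    refine (mul_le_mul_of_nonneg_right (chi_lip k x y) dist_nonneg).trans (le_of_eq ?_)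
    rw [ha]; field_simp; ring

lemma chi_sum {x y : M} (hxy : dist x o ≤ dist y o) (j K : ℕ) :
    ∑ k ∈ Finset.range K, |chi o (k + j) x - chi o (k + j) y| * dist x o ≤ 4 * dist x y := by
  refine (sum_le_sum fun k _ => chi_step hxy (k + j)).trans ?_
  rw [← mul_sum, mul_comm]
  apply mul_le_mul_of_nonneg_right _ dist_nonneg
  have := Finset.sum_range_sub' (fun k => min 4 (2 * (dist x o / 2 ^ (k + j)))) K
  simp only [add_right_comm _ 1 j] at this
  rw [this]
  have h1 := min_le_left 4 (2 * (dist x o / 2 ^ (0 + j)))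
  have h2 : 0 ≤ min 4 (2 * (dist x o / 2 ^ (K + j))) := le_min (by norm_num) (by positivity)
  linarith

lemma IsFree.norm_delta (h : IsFree o δ) (x : M) : ‖δ x‖ ≤ dist x o := by
  simpa [h.zero] using h.lip x o

lemma IsFree.smul_sub (h : IsFree o δ) (a b : ℝ) (x y : M) :
    ‖a • δ x - b • δ y‖ ≤ |b| * dist x y + |a - b| * dist x o := by
  have e : a • δ x - b • δ y = b • (δ x - δ y) + (a - b) • δ x := by
    rw [_root_.smul_sub, sub_smul]; abel
  rw [e]
  refine (norm_add_le _ _).trans ?_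
  rw [norm_smul, norm_smul, Real.norm_eq_abs, Real.norm_eq_abs]
  exact add_le_add (mul_le_mul_of_nonneg_left (h.lip x y) (abs_nonneg _))
    (mul_le_mul_of_nonneg_left (h.norm_delta x) (abs_nonneg _))

theorem IsFree.cutoffs [CompleteSpace X] (h : IsFree o δ) :
    ∃ P : ℕ → X →L[ℝ] X, (∀ k x, P k (δ x) = chi o k x • δ x) ∧
      (∀ γ, Tendsto (fun k => P k γ) atTop (𝓝 γ)) ∧
      ∀ K γ, ∑ k ∈ Finset.range K, ‖(P (k + 1) - P k) γ‖ ≤ 9 * ‖γ‖ := by
  have h1 : ∀ k, ∀ u v, ‖chi o k u • δ u - chi o k v • δ v‖ ≤ 5 * dist u v := by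
    intro k
    have key : ∀ u v, dist u o ≤ dist v o →
        ‖chi o k u • δ u - chi o k v • δ v‖ ≤ 5 * dist u v := by
      intro u v huv
      refine (h.smul_sub _ _ u v).trans ?_
      have a1 := chi_sum huv k 1
      simp only [Finset.sum_range_one, zero_add] at a1
      have a2 : |chi o k v| * dist u v ≤ 1 * dist u v := by
        apply mul_le_mul_of_nonneg_right _ dist_nonneg
        rw [abs_of_nonneg (chi_nonneg k v)]; exact chi_le_one k v
      linarith
    intro u v
    rcases le_total (dist u o) (dist v o) with huv | huv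
    · exact key u v huv
    · rw [norm_sub_rev, dist_comm]; exact key v u huv
  choose P hP1 hP2 using fun k => h.lin (fun x => chi o k x • δ x) 5 (by norm_num) (h1 k)
  have hP3 : ∀ k x, P k (δ x) = chi o k x • δ x := by
    intro k x; rw [hP2, h.zero, smul_zero, sub_zero]
  refine ⟨P, hP3, h.tendsto P 5 hP1 ?_, fun K => h.sum_norm_le _ _ 9 (by norm_num) ?_⟩
  · intro x
    have := (tendsto_pow_atTop_atTop_of_one_lt (by norm_num : (1 : ℝ) < 2)).eventually_ge_atTop
      (dist x o)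
    filter_upwards [this] with k hk
    rw [hP3, chi_eq_one hk, one_smul]
  · have key : ∀ u v, dist u o ≤ dist v o → ∑ k ∈ Finset.range K,
        ‖(P (k + 1) - P k) (δ u) - (P (k + 1) - P k) (δ v)‖ ≤ 9 * dist u v := by
      intro u v huv
      have a0 : ∀ k ∈ Finset.range K, ‖(P (k + 1) - P k) (δ u) - (P (k + 1) - P k) (δ v)‖ ≤
          (chi o (k + 1) v - chi o k v) * dist u v +
          (|chi o (k + 1) u - chi o (k + 1) v| * dist u o +
            |chi o (k + 0) u - chi o (k + 0) v| * dist u o) := by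
        intro k _
        simp only [ContinuousLinearMap.sub_apply, hP3, ← sub_smul, add_zero]
        refine (h.smul_sub _ _ u v).trans ?_
        rw [abs_of_nonneg (sub_nonneg.2 (chi_mono k v)), ← add_mul]
        apply add_le_add le_rfl (mul_le_mul_of_nonneg_right _ dist_nonneg)
        refine le_trans (le_of_eq ?_) (abs_sub _ _)
        congr 1; ring
      refine (sum_le_sum a0).trans ?_
      rw [sum_add_distrib, sum_add_distrib, ← sum_mul,
        Finset.sum_range_sub (fun k => chi o k v) K]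
      have a1 := chi_sum huv 1 K
      have a2 := chi_sum huv 0 K
      have a3 : (chi o K v - chi o 0 v) * dist u v ≤ 1 * dist u v := by
        apply mul_le_mul_of_nonneg_right _ dist_nonneg
        linarith [chi_le_one (o := o) K v, chi_nonneg (o := o) 0 v]
      linarith
    intro u v
    rcases le_total (dist u o) (dist v o) with huv | huv
    · exact key u v huv
    · rw [dist_comm]
      refine le_trans (le_of_eq ?_) (key v u huv)
      exact sum_congr rfl fun k _ => norm_sub_rev _ _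

/-- the free space as a submodule -/
noncomputable abbrev freeSpace (o : M) : Submodule ℝ (StrongDual ℝ (Lip0 o)) :=
  closedSpan (Set.range (delta o))

/-- the canonical map into the free space -/
noncomputable def dl (o : M) (x : M) : freeSpace o :=
  ⟨delta o x, Submodule.le_topologicalClosure _ (Submodule.subset_span ⟨x, rfl⟩)⟩

instance (o : M) : CompleteSpace (freeSpace o) :=
  (Submodule.isClosed_topologicalClosure _).completeSpace_coe

theorem isFree_dl (o : M) : IsFree o (dl o) := by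
  refine ⟨?_, ?_, ?_, ?_⟩
  · apply Subtype.ext
    ext f
    exact f.fn_base
  · intro y z
    rw [Submodule.coe_norm]
    apply ContinuousLinearMap.opNorm_le_bound _ dist_nonneg
    intro f
    have h1 := f.le_norm_mul y z
    rw [mul_comm] at h1
    exact h1
  · intro μ
    rw [closure_subtype]
    have : Subtype.val '' ((Submodule.span ℝ (Set.range (dl o)) : Submodule ℝ (freeSpace o)) :
        Set (freeSpace o)) =
        (Submodule.span ℝ (Set.range (delta o)) : Set (StrongDual ℝ (Lip0 o))) := by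
      have h1 := Submodule.map_span (freeSpace o).subtype (Set.range (dl o))
      have h2 : (freeSpace o).subtype '' (Set.range (dl o)) = Set.range (delta o) := by
        ext ν
        constructor
        · rintro ⟨_, ⟨x, rfl⟩, rfl⟩
          exact ⟨x, rfl⟩
        · rintro ⟨x, rfl⟩
          exact ⟨_, ⟨x, rfl⟩, rfl⟩
      rw [h2] at h1
      rw [← h1]; rfl
    rw [this]
    exact μ.2
  · intro f C hC hf
    have hl : ∀ x y : M, |(f x - f o) - (f y - f o)| ≤ C * dist x y := by
      intro x y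
      rw [sub_sub_sub_cancel_right]
      exact hf x y
    let F : Lip0 o := ⟨fun x => f x - f o, sub_self _, ⟨C, hC⟩,
      LipschitzWith.of_dist_le_mul fun x y => by rw [Real.dist_eq]; exact hl x y⟩
    let φ : freeSpace o →L[ℝ] ℝ := (NormedSpace.inclusionInDoubleDual ℝ (Lip0 o) F).comp
      (freeSpace o).subtypeL
    refine ⟨φ, ?_, fun x => rfl⟩
    apply ContinuousLinearMap.opNorm_le_bound _ hC
    intro μ
    have h1 : ‖F‖ ≤ C := F.norm_le hC hl
    have h2 := (μ : StrongDual ℝ (Lip0 o)).le_opNorm F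
    rw [mul_comm] at h2
    exact h2.trans (mul_le_mul_of_nonneg_right h1 (norm_nonneg _))

instance (o : M) : CompleteSpace (FreeSp o) := inferInstanceAs (CompleteSpace (freeSpace o))

theorem isFree_sp (o : M) : IsFree (X := FreeSp o) o (dl o) := isFree_dl o

end Pool.Agent.H686Z.Free
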