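import Pool.Agent.H686Z.Free.Strip

set_option autoImplicit false

namespace Pool.Agent.H686Z.Free

open Set Filter Topology Finset MeasureTheory Pool.Agent.H686Z.Walsh

lemma coord_le (p q : Plane) (i : Fin 2) : |p i - q i| ≤ dist p q := by
  have := PiLp.dist_apply_le p q i
  rwa [Real.dist_eq] at this

lemma dist_h (x x' y : ℝ) : dist (!₂[x, y] : Plane) !₂[x', y] = |x - x'| := by
  rw [EuclideanSpace.dist_eq]
  simp [Real.dist_eq, Real.sqrt_sq_eq_abs]

lemma dist_v (x y y' : ℝ) : dist (!₂[x, y] : Plane) !₂[x, y'] = |y - y'| := by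
  rw [EuclideanSpace.dist_eq]
  simp [Real.dist_eq, Real.sqrt_sq_eq_abs]

lemma RZ_floor (x : RZ) : ((⌊x.1 1⌋ : ℤ) : ℝ) = x.1 1 := by
  obtain ⟨n, hn⟩ := x.2
  rw [hn, Int.floor_intCast]

/-- coordinates on `RZ` -/
noncomputable def stripRZ : Strip RZ where
  pt s n := ⟨!₂[s, (n : ℝ)], n, rfl⟩
  cs x := x.1 0
  cn x := ⌊x.1 1⌋
  pt_c x := by
    apply Subtype.ext
    ext i
    fin_cases i
    · rfl
    · exact RZ_floor x
  cs_pt s n := rfl
  cn_pt s n := Int.floor_intCast n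
  dist_pt s t n := dist_h s t n
  cs_le x y := coord_le x.1 y.1 0
  cn_le x y := by
    rw [RZ_floor, RZ_floor]
    exact coord_le x.1 y.1 1

theorem no_embed {M X Y : Type} [MetricSpace M] [NormedAddCommGroup X] [NormedSpace ℝ X]
    [NormedAddCommGroup Y] [NormedSpace ℝ Y] [CompleteSpace Y] {o : Plane} {δ : Plane → X}
    (h : IsFree o δ) (G : Strip M) {o' : M} {δ' : M → Y} (h' : IsFree o' δ') (T : X →L[ℝ] Y)
    (hT : ∀ μ, ‖μ‖ ≤ ‖T μ‖) : False := by
  obtain ⟨S, R, U, hR, hU, hdec⟩ := G.structure h'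
  refine abs_main (fun x y => T (δ !₂[x, y])) ‖T‖ (norm_nonneg _) ?_ ?_ ?_ S R U 27
    (by norm_num) hR hU hdec
  · intro x x' y
    rw [← map_sub, ← dist_h x x' y]
    exact (T.le_opNorm _).trans (mul_le_mul_of_nonneg_left (h.lip _ _) (norm_nonneg _))
  · intro x y y'
    rw [← map_sub, ← dist_v x y y']
    exact (T.le_opNorm _).trans (mul_le_mul_of_nonneg_left (h.lip _ _) (norm_nonneg _))
  · intro N y0 t ht A hA B hB v c hc hv
    have hn : (0 : ℝ) < 2 ^ N := by positivity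
    let p : ℕ × ℕ → Plane := fun q => !₂[q.1 / 2 ^ N, y0 + q.2 / 2 ^ N]
    have hp1 : ∀ q q' : ℕ × ℕ, |(q.1 : ℝ) - q'.1| ≤ 2 ^ N * dist (p q) (p q') := by
      intro q q'
      have := coord_le (p q) (p q') 0
      change |(q.1 : ℝ) / 2 ^ N - q'.1 / 2 ^ N| ≤ _ at this
      rwa [← sub_div, abs_div, abs_of_pos hn, div_le_iff₀' hn] at this
    have hp2 : ∀ q q' : ℕ × ℕ, |(q.2 : ℝ) - q'.2| ≤ 2 ^ N * dist (p q) (p q') := by
      intro q q'
      have := coord_le (p q) (p q') 1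
      change |(y0 + (q.2 : ℝ) / 2 ^ N) - (y0 + q'.2 / 2 ^ N)| ≤ _ at this
      rwa [add_sub_add_left_eq_sub, ← sub_div, abs_div, abs_of_pos hn, div_le_iff₀' hn] at this
    have hinj : Function.Injective p := by
      intro q q' hq
      have a1 := hp1 q q'
      have a2 := hp2 q q'
      rw [hq, dist_self, mul_zero, abs_nonpos_iff, sub_eq_zero] at a1 a2
      exact Prod.ext (by exact_mod_cast a1) (by exact_mod_cast a2)
    have hc' : 0 ≤ 2 * c * 2 ^ N := by positivity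
    have hlip : LipschitzOnWith ⟨2 * c * 2 ^ N, hc'⟩
        (Function.extend p (fun q => v q.1 q.2) 0) (Set.range p) := by
      apply LipschitzOnWith.of_dist_le_mul
      rintro _ ⟨q, rfl⟩ _ ⟨q', rfl⟩
      rw [hinj.extend_apply, hinj.extend_apply, Real.dist_eq]
      refine (hv _ _ _ _).trans ?_
      have := mul_le_mul_of_nonneg_left (add_le_add (hp1 q q') (hp2 q q')) hc
      change _ ≤ 2 * c * 2 ^ N * _
      linarith
    obtain ⟨f, hf1, hf2⟩ := hlip.extend_real
    have hf3 : ∀ q, f (p q) = v q.1 q.2 := fun q => by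
      rw [← hf2 ⟨q, rfl⟩, hinj.extend_apply]
    obtain ⟨φ, hφ1, hφ2⟩ := h.ext f (2 * c * 2 ^ N) hc' (fun u w => by
      have := hf1.dist_le_mul u w
      rwa [Real.dist_eq] at this)
    have e1 : co N A B v = φ (co N A B (fun a b => δ (p (a, b)))) := by
      rw [map_co]
      unfold co
      apply sum_congr rfl; intro b _
      congr 1
      simp only [hφ2, hf3, smul_eq_mul, mul_sub, sum_sub_distrib, ← sum_mul]
      rw [sum_w (mem_fam hA ht).1 ht]
      simp
    have e2 : co N A B (fun a b => (2 ^ N : ℝ) • T (δ !₂[a / 2 ^ N, y0 + b / 2 ^ N])) =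
        (2 ^ N : ℝ) • T (co N A B (fun a b => δ (p (a, b)))) := by
      have := map_co ((2 ^ N : ℝ) • T) N A B (fun a b => δ (p (a, b)))
      exact this.symm
    rw [e1, e2, norm_smul, Real.norm_eq_abs, abs_of_pos hn]
    refine (le_abs_self _).trans ((φ.le_opNorm _).trans ?_)
    refine (mul_le_mul hφ1 (hT _) (norm_nonneg _) hc').trans (le_of_eq ?_)
    ring

lemma exists_lower {X Y : Type} [NormedAddCommGroup X] [NormedSpace ℝ X] [CompleteSpace X]
    [NormedAddCommGroup Y] [NormedSpace ℝ Y] [CompleteSpace Y] (W : Submodule ℝ Y)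
    (hW : IsClosed (W : Set Y)) (T : W →L[ℝ] X) (hT : Function.Bijective T) :
    ∃ A : X →L[ℝ] Y, ∀ μ, ‖μ‖ ≤ ‖A μ‖ := by
  have : CompleteSpace W := hW.completeSpace_coe
  let e := ContinuousLinearEquiv.ofBijective T (LinearMap.ker_eq_bot.2 hT.1)
    (LinearMap.range_eq_top.2 hT.2)
  refine ⟨‖T‖ • W.subtypeL.comp (e.symm : X →L[ℝ] W), fun μ => ?_⟩
  have h1 : T (e.symm μ) = μ := e.apply_symm_apply μ
  have h2 := T.le_opNorm (e.symm μ)
  rw [h1] at h2
  refine h2.trans (le_of_eq ?_)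
  change _ = ‖‖T‖ • ((e.symm μ : W) : Y)‖
  rw [norm_smul, Real.norm_of_nonneg (norm_nonneg T)]
  rfl

theorem no_bijection (o : RZ) (o' : Plane) (W : Submodule ℝ (FreeSp o))
    (hW : IsClosed (W : Set (FreeSp o))) (T : W →L[ℝ] FreeSp o') :
    ¬ Function.Bijective T := by
  intro hT
  obtain ⟨A, hA⟩ := exists_lower W hW T hT
  exact no_embed (isFree_sp o') stripRZ (isFree_sp o) A hA

end Pool.Agent.H686Z.Free
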