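import Pool.Agent.H686Z.Free.Gen
import Pool.Agent.H686Z.Free.Abs

set_option autoImplicit false

namespace Pool.Agent.H686Z.Free

open Set Filter Topology Finset MeasureTheory
open scoped ENNReal

/-- the measure on the union of lines -/
noncomputable def mu : Measure (ℝ × ℤ) := (volume : Measure ℝ).prod Measure.count

lemma mu_seg (a b : ℝ) (n : ℤ) : mu (Set.Ioc a b ×ˢ {n}) = ENNReal.ofReal (b - a) := by
  unfold mu
  rw [Measure.prod_prod]
  simp

lemma meas_seg (a b : ℝ) (n : ℤ) : MeasurableSet (Set.Ioc a b ×ˢ ({n} : Set ℤ)) :=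
  measurableSet_Ioc.prod (measurableSet_singleton n)

/-- indicator of a segment -/
noncomputable def ind (a b : ℝ) (n : ℤ) : Lp ℝ 1 mu :=
  indicatorConstLp 1 (meas_seg a b n) (by rw [mu_seg]; exact ENNReal.ofReal_ne_top) (1 : ℝ)

lemma norm_ind {a b : ℝ} (h : a ≤ b) (n : ℤ) : ‖ind a b n‖ = b - a := by
  unfold ind
  rw [norm_indicatorConstLp (by norm_num) (by norm_num), measureReal_def, mu_seg,
    ENNReal.toReal_ofReal (by linarith)]
  simp

lemma ind_add {a b c : ℝ} (h1 : a ≤ b) (h2 : b ≤ c) (n : ℤ) :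
    ind a c n = ind a b n + ind b c n := by
  unfold ind
  rw [← indicatorConstLp_disjoint_union]
  · congr 1
    rw [← Set.union_prod, Set.Ioc_union_Ioc_eq_Ioc h1 h2]
  · apply Set.Disjoint.set_prod_left
    exact Set.Ioc_disjoint_Ioc_of_le le_rfl

lemma exists_Lam (f : ℝ → ℤ → ℝ) (hf : ∀ n s t, |f s n - f t n| ≤ |s - t|) :
    ∃ Λ : Lp ℝ 1 mu →L[ℝ] ℝ, ‖Λ‖ ≤ 1 ∧ ∀ a b n, a ≤ b → Λ (ind a b n) = f b n - f a n := by
  have hl : ∀ n, LipschitzWith 1 (fun s => f s n) := fun n =>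
    LipschitzWith.of_dist_le_mul fun s t => by
      rw [Real.dist_eq, Real.dist_eq]; simpa using hf n s t
  let h : ℝ × ℤ → ℝ := fun p => deriv (fun s => f s p.2) p.1
  have hm : Measurable h := measurable_from_prod_countable_left fun n =>
    (measurable_deriv (fun s => f s n) : Measurable fun x => deriv (fun s => f s n) x)
  have hb : ∀ p, ‖h p‖ ≤ 1 := fun p => by
    simpa using norm_deriv_le_of_lipschitz (x₀ := p.1) (hl p.2)
  have hi : ∀ u : Lp ℝ 1 mu, Integrable (fun p => h p * u p) mu := fun u =>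
    (L1.integrable_coeFn u).bdd_mul hm.aestronglyMeasurable (ae_of_all _ hb)
  let Λ0 : Lp ℝ 1 mu →ₗ[ℝ] ℝ :=
    { toFun := fun u => ∫ p, h p * u p ∂mu
      map_add' := by
        intro u v
        rw [← integral_add (hi u) (hi v)]
        apply integral_congr_ae
        filter_upwards [Lp.coeFn_add u v] with p hp
        rw [hp, Pi.add_apply, mul_add]
      map_smul' := by
        intro c u
        rw [RingHom.id_apply, smul_eq_mul, ← integral_const_mul]
        apply integral_congr_ae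
        filter_upwards [Lp.coeFn_smul c u] with p hp
        rw [hp, Pi.smul_apply, smul_eq_mul]
        ring }
  have hΛ : ∀ u, ‖Λ0 u‖ ≤ 1 * ‖u‖ := by
    intro u
    rw [one_mul, L1.norm_eq_integral_norm]
    apply norm_integral_le_of_norm_le (L1.integrable_coeFn u).norm
    apply ae_of_all
    intro p
    rw [norm_mul]
    nlinarith [hb p, norm_nonneg (u p), norm_nonneg (h p)]
  refine ⟨Λ0.mkContinuous 1 hΛ, LinearMap.mkContinuous_norm_le _ zero_le_one _, ?_⟩
  intro a b n hab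
  change ∫ p, h p * (ind a b n) p ∂mu = _
  have e1 : ∫ p, h p * (ind a b n) p ∂mu = ∫ p in Set.Ioc a b ×ˢ {n}, h p ∂mu := by
    rw [← integral_indicator (meas_seg a b n)]
    apply integral_congr_ae
    filter_upwards [indicatorConstLp_coeFn (p := 1) (μ := mu) (hs := meas_seg a b n)
      (hμs := by rw [mu_seg]; exact ENNReal.ofReal_ne_top) (c := (1 : ℝ))] with p hp
    unfold ind
    rw [hp]
    by_cases hp' : p ∈ Set.Ioc a b ×ˢ ({n} : Set ℤ)
    · simp only [Set.indicator_of_mem hp', mul_one]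
    · simp only [Set.indicator_of_notMem hp', mul_zero]
  rw [e1]
  unfold mu
  rw [← Measure.prod_restrict, Measure.restrict_singleton, Measure.count_singleton, one_smul,
    Measure.prod_dirac, (measurableEmbedding_prod_mk_right n).integral_map,
    ← intervalIntegral.integral_of_le hab]
  exact ((hl n).lipschitzOnWith.absolutelyContinuousOnInterval).integral_deriv_eq_sub

variable {M : Type} [MetricSpace M]

/-- coordinates on a union of parallel lines -/
structure Strip (M : Type) [MetricSpace M] where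
  pt : ℝ → ℤ → M
  cs : M → ℝ
  cn : M → ℤ
  pt_c : ∀ x, pt (cs x) (cn x) = x
  cs_pt : ∀ s n, cs (pt s n) = s
  cn_pt : ∀ s n, cn (pt s n) = n
  dist_pt : ∀ s t n, dist (pt s n) (pt t n) = |s - t|
  cs_le : ∀ x y, |cs x - cs y| ≤ dist x y
  cn_le : ∀ x y, |(cn x : ℝ) - cn y| ≤ dist x y

lemma Strip.cell (G : Strip M) {Z : Type} [NormedAddCommGroup Z] (g : ℝ → ℤ → Z)
    (h1 : ∀ s n, ‖g s n‖ ≤ 2 * (Int.fract s * (1 - Int.fract s)))
    (h2 : ∀ s t n, s ≤ t → ⌊s⌋ = ⌊t⌋ → ‖g s n - g t n‖ ≤ 2 * (t - s)) (x y : M) :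
    ‖g (G.cs x) (G.cn x) - g (G.cs y) (G.cn y)‖ ≤ 2 * dist x y := by
  have b1 : ∀ s n, ‖g s n‖ ≤ 2 * Int.fract s := fun s n => by
    nlinarith [h1 s n, Int.fract_nonneg s, Int.fract_lt_one s]
  have b2 : ∀ s n, ‖g s n‖ ≤ 2 * (1 - Int.fract s) := fun s n => by
    nlinarith [h1 s n, Int.fract_nonneg s, Int.fract_lt_one s]
  have key : ∀ s t n, s ≤ t → ‖g s n - g t n‖ ≤ 2 * (t - s) := by
    intro s t n hst
    rcases (Int.floor_le_floor hst).eq_or_lt with h | h
    · exact h2 s t n hst h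
    · have h3 : (⌊s⌋ : ℝ) + 1 ≤ ⌊t⌋ := by exact_mod_cast h
      have h4 := b2 s n
      have h5 := b1 t n
      have h6 := norm_sub_le (g s n) (g t n)
      unfold Int.fract at h4 h5
      linarith
  by_cases hn : G.cn x = G.cn y
  · rw [hn]
    have h3 := abs_le.1 (G.cs_le x y)
    rcases le_total (G.cs x) (G.cs y) with h | h
    · linarith [key _ _ (G.cn y) h]
    · rw [norm_sub_rev]
      linarith [key _ _ (G.cn y) h]
  · have h3 : (1 : ℝ) ≤ |(G.cn x : ℝ) - G.cn y| := by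
      have := Int.one_le_abs (sub_ne_zero.2 hn)
      exact_mod_cast this
    have h4 := G.cn_le x y
    have h5 := norm_sub_le (g (G.cs x) (G.cn x)) (g (G.cs y) (G.cn y))
    linarith [b1 (G.cs x) (G.cn x), b2 (G.cs x) (G.cn x), b1 (G.cs y) (G.cn y),
      b2 (G.cs y) (G.cn y)]

variable {X : Type} [NormedAddCommGroup X] [NormedSpace ℝ X] {o : M} {δ : M → X}

/-- piecewise linear interpolation between lattice points -/
noncomputable def Strip.q (G : Strip M) (δ : M → X) (s : ℝ) (n : ℤ) : X :=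
  δ (G.pt ⌊s⌋ n) + Int.fract s • (δ (G.pt (⌊s⌋ + 1) n) - δ (G.pt ⌊s⌋ n))

/-- the integrable part -/
noncomputable def sg (s : ℝ) (n : ℤ) : Lp ℝ 1 mu :=
  ind ⌊s⌋ s n - Int.fract s • ind ⌊s⌋ (⌊s⌋ + 1) n

lemma sg_norm (s : ℝ) (n : ℤ) : ‖sg s n‖ ≤ 2 * (Int.fract s * (1 - Int.fract s)) := by
  have h1 := Int.floor_le s
  have h2 := (Int.lt_floor_add_one s).le
  have e : sg s n = (1 - Int.fract s) • ind ⌊s⌋ s n - Int.fract s • ind s (⌊s⌋ + 1) n := by
    unfold sg
    rw [ind_add h1 h2, smul_add, sub_smul, one_smul]; abel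
  rw [e]
  refine (norm_sub_le _ _).trans (le_of_eq ?_)
  rw [norm_smul, norm_smul, norm_ind h1, norm_ind h2, Real.norm_eq_abs, Real.norm_eq_abs,
    abs_of_nonneg (Int.fract_nonneg s), abs_of_nonneg (sub_nonneg.2 (Int.fract_lt_one s).le)]
  unfold Int.fract
  ring

lemma sg_sub (s t : ℝ) (n : ℤ) (hst : s ≤ t) (h : ⌊s⌋ = ⌊t⌋) :
    ‖sg s n - sg t n‖ ≤ 2 * (t - s) := by
  have h1 := Int.floor_le s
  have e : sg s n - sg t n = (t - s) • ind ⌊s⌋ (⌊s⌋ + 1) n - ind s t n := by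
    unfold sg Int.fract
    rw [← h, ind_add h1 hst, sub_smul, sub_smul, sub_smul]; abel
  rw [e]
  refine (norm_sub_le _ _).trans (le_of_eq ?_)
  rw [norm_smul, norm_ind hst, norm_ind (by linarith), Real.norm_eq_abs,
    abs_of_nonneg (sub_nonneg.2 hst)]
  ring

lemma Strip.d_norm (G : Strip M) (h : IsFree o δ) (s : ℝ) (n : ℤ) :
    ‖δ (G.pt s n) - G.q δ s n‖ ≤ 2 * (Int.fract s * (1 - Int.fract s)) := by
  have h1 := Int.floor_le s
  have h2 := (Int.lt_floor_add_one s).le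
  have e : δ (G.pt s n) - G.q δ s n = (1 - Int.fract s) • (δ (G.pt s n) - δ (G.pt ⌊s⌋ n)) -
      Int.fract s • (δ (G.pt (⌊s⌋ + 1) n) - δ (G.pt s n)) := by
    unfold Strip.q
    simp only [smul_sub, sub_smul, one_smul]; abel
  rw [e]
  refine (norm_sub_le _ _).trans ?_
  have a1 := h.lip (G.pt s n) (G.pt ⌊s⌋ n)
  have a2 := h.lip (G.pt (⌊s⌋ + 1) n) (G.pt s n)
  rw [G.dist_pt, abs_of_nonneg (by linarith)] at a1 a2
  have f0 := Int.fract_nonneg s
  have f1 := sub_nonneg.2 (Int.fract_lt_one s).le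
  rw [norm_smul, norm_smul, Real.norm_eq_abs, Real.norm_eq_abs, abs_of_nonneg f0,
    abs_of_nonneg f1]
  have m1 := mul_le_mul_of_nonneg_left a1 f1
  have m2 := mul_le_mul_of_nonneg_left a2 f0
  unfold Int.fract at *
  nlinarith

lemma Strip.d_sub (G : Strip M) (h : IsFree o δ) (s t : ℝ) (n : ℤ) (hst : s ≤ t)
    (hf : ⌊s⌋ = ⌊t⌋) :
    ‖(δ (G.pt s n) - G.q δ s n) - (δ (G.pt t n) - G.q δ t n)‖ ≤ 2 * (t - s) := by
  have e : (δ (G.pt s n) - G.q δ s n) - (δ (G.pt t n) - G.q δ t n) =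
      (t - s) • (δ (G.pt (⌊s⌋ + 1) n) - δ (G.pt ⌊s⌋ n)) - (δ (G.pt t n) - δ (G.pt s n)) := by
    unfold Strip.q Int.fract
    rw [← hf]
    simp only [sub_smul]; abel
  rw [e]
  refine (norm_sub_le _ _).trans ?_
  have a1 := h.lip (G.pt (⌊s⌋ + 1) n) (G.pt ⌊s⌋ n)
  have a2 := h.lip (G.pt t n) (G.pt s n)
  rw [G.dist_pt, abs_of_nonneg (by linarith)] at a1 a2
  rw [norm_smul, Real.norm_eq_abs, abs_of_nonneg (sub_nonneg.2 hst)]
  have m1 := mul_le_mul_of_nonneg_left a1 (sub_nonneg.2 hst)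
  nlinarith

lemma Strip.finite_ball (G : Strip M) (o : M) (ρ : ℝ) :
    {z : M | ∃ m n : ℤ, z = G.pt m n ∧ dist z o < ρ}.Finite := by
  refine (((Set.finite_Icc ⌊G.cs o - ρ⌋ ⌈G.cs o + ρ⌉).prod
    (Set.finite_Icc ⌊G.cn o - ρ⌋ ⌈G.cn o + ρ⌉)).image
      (fun p : ℤ × ℤ => G.pt p.1 p.2)).subset ?_
  rintro z ⟨m, n, rfl, hz⟩
  have h1 := abs_le.1 ((G.cs_le (G.pt m n) o).trans hz.le)
  have h2 := abs_le.1 ((G.cn_le (G.pt m n) o).trans hz.le)
  rw [G.cs_pt] at h1
  rw [G.cn_pt] at h2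
  refine ⟨(m, n), ⟨⟨?_, ?_⟩, ?_, ?_⟩, rfl⟩
  · exact Int.floor_le_iff.2 (by simp only; linarith)
  · exact Int.le_ceil_iff.2 (by simp only; linarith)
  · exact Int.floor_le_iff.2 (by simp only; linarith)
  · exact Int.le_ceil_iff.2 (by simp only; linarith)

theorem Strip.structure [CompleteSpace X] (G : Strip M) (h : IsFree o δ) :
    ∃ (S : X →L[ℝ] Lp ℝ 1 mu) (R U : ℕ → X →L[ℝ] X),
      (∀ K y, ∑ k ∈ Finset.range K, ‖R k y‖ ≤ 27 * ‖y‖) ∧
      (∀ K y, ‖U K y‖ₑ ≤ ∑' k, ‖R (k + K) y‖ₑ) ∧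
      (∀ K, ∃ (m : ℕ) (lam : Fin m → X →L[ℝ] ℝ),
        ∀ y, ‖y‖ ≤ ‖S y‖ + ∑ i, |lam i y| + ‖U K y‖) := by
  obtain ⟨S, -, hS⟩ := h.lin (fun x => sg (G.cs x) (G.cn x)) 2 (by norm_num)
    (G.cell sg sg_norm sg_sub)
  obtain ⟨E, hE1, hE⟩ := h.lin
    (fun x => δ (G.pt (G.cs x) (G.cn x)) - G.q δ (G.cs x) (G.cn x)) 2 (by norm_num)
    (G.cell (fun s n => δ (G.pt s n) - G.q δ s n) (G.d_norm h) (G.d_sub h))
  obtain ⟨P, hP1, hP2, hP3⟩ := h.cutoffs
  have hES : ∀ γ, ‖E γ‖ ≤ ‖S γ‖ := by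
    intro γ
    obtain ⟨ψ, hψ1, hψ2⟩ := exists_dual_vector'' ℝ (E γ)
    obtain ⟨Λ, hΛ1, hΛ2⟩ := exists_Lam (fun s n => ψ (δ (G.pt s n))) (by
      intro n s t
      rw [← map_sub]
      refine (ψ.le_opNorm _).trans ?_
      have := h.lip (G.pt s n) (G.pt t n)
      rw [G.dist_pt] at this
      nlinarith [norm_nonneg (δ (G.pt s n) - δ (G.pt t n))])
    have e0 : ∀ s n, ψ (δ (G.pt s n) - G.q δ s n) = Λ (sg s n) := by
      intro s n
      unfold sg Strip.q
      simp only [map_sub, map_add, map_smul, smul_eq_mul]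
      rw [hΛ2 _ _ _ (Int.floor_le s), hΛ2 _ _ _ (by linarith)]
      ring
    have e1 : ψ.comp E = Λ.comp S := h.ext_eq fun x => by
      simp only [ContinuousLinearMap.comp_apply]
      rw [hE, hS, map_sub, map_sub Λ, e0, e0]
    have e2 : ‖E γ‖ = Λ (S γ) := by
      have : ψ (E γ) = Λ (S γ) := congrArg (fun A : X →L[ℝ] ℝ => A γ) e1
      rw [← this, hψ2]; rfl
    rw [e2]
    refine (le_abs_self _).trans ((Λ.le_opNorm _).trans ?_)
    nlinarith [norm_nonneg (S γ)]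
  let Q : X →L[ℝ] X := ContinuousLinearMap.id ℝ X - E
  have hQ : ∀ γ, Q γ = γ - E γ := fun γ => rfl
  have hQn : ∀ γ, ‖Q γ‖ ≤ 3 * ‖γ‖ := by
    intro γ
    rw [hQ]
    have a1 := norm_sub_le γ (E γ)
    have a2 := (E.le_opNorm γ).trans (mul_le_mul_of_nonneg_right hE1 (norm_nonneg _))
    linarith
  have hQδ : ∀ x, Q (δ x) = G.q δ (G.cs x) (G.cn x) - G.q δ (G.cs o) (G.cn o) := by
    intro x
    rw [hQ, hE, G.pt_c, G.pt_c, h.zero]; abel
  refine ⟨S, fun k => (P (k + 1) - P k).comp Q, fun K => Q - (P K).comp Q, ?_, ?_, ?_⟩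
  · intro K y
    have := hP3 K (Q y)
    have a := hQn y
    simp only [ContinuousLinearMap.comp_apply]
    linarith
  · intro K y
    have t1 : Tendsto (fun j => ‖P (j + K) (Q y) - P K (Q y)‖ₑ) atTop
        (𝓝 ‖Q y - P K (Q y)‖ₑ) :=
      (((hP2 (Q y)).comp (tendsto_add_atTop_nat K)).sub_const _).enorm
    refine le_of_tendsto' t1 fun j => ?_
    have e := Finset.sum_range_sub (fun k => P (k + K) (Q y)) j
    rw [zero_add] at e
    rw [← e]
    refine (enorm_sum_le _ _).trans (le_trans (le_of_eq ?_) (ENNReal.sum_le_tsum (Finset.range j)))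
    apply sum_congr rfl
    intro k _
    rw [add_right_comm]
    rfl
  · intro K
    obtain ⟨m, lam, hlam⟩ := h.finite_rank ((P K).comp Q) _
      ((G.finite_ball o (2 * 2 ^ K)).image δ) (by
        have hz : ∀ m n : ℤ, P K (δ (G.pt m n)) ∈ Submodule.span ℝ
            (δ '' {z : M | ∃ m n : ℤ, z = G.pt m n ∧ dist z o < 2 * 2 ^ K}) := by
          intro m n
          rw [hP1]
          by_cases hd : dist (G.pt m n) o < 2 * 2 ^ K
          · exact Submodule.smul_mem _ _ (Submodule.subset_span ⟨_, ⟨m, n, rfl, hd⟩, rfl⟩)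
          · rw [chi_eq_zero ((le_div_iff₀ (by positivity)).2 (not_lt.1 hd)), zero_smul]
            exact Submodule.zero_mem _
        have hq : ∀ s n, P K (G.q δ s n) ∈ Submodule.span ℝ
            (δ '' {z : M | ∃ m n : ℤ, z = G.pt m n ∧ dist z o < 2 * 2 ^ K}) := by
          intro s n
          unfold Strip.q
          rw [map_add, map_smul, map_sub]
          have := hz (⌊s⌋ + 1) n
          push_cast at this
          exact Submodule.add_mem _ (hz _ _)
            (Submodule.smul_mem _ _ (Submodule.sub_mem _ this (hz _ _)))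
        intro x
        rw [ContinuousLinearMap.comp_apply, hQδ, map_sub]
        exact Submodule.sub_mem _ (hq _ _) (hq _ _))
    refine ⟨m, lam, fun y => ?_⟩
    have e : y = E y + (P K).comp Q y + (Q - (P K).comp Q) y := by
      change y = E y + P K (Q y) + (Q y - P K (Q y))
      rw [hQ]; abel
    have a1 := hlam y
    have a2 := hES y
    have a3 := norm_add₃_le (a := E y) (b := (P K).comp Q y) (c := (Q - (P K).comp Q) y)
    rw [← e] at a3
    linarith

end Pool.Agent.H686Z.Free
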