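import Mathlib

set_option autoImplicit false

namespace Pool.Agent.H686Z.Walsh

open Finset

/-- Rademacher sign of bit `t`. -/
def r (t a : ℕ) : ℝ := if a.testBit t then -1 else 1

/-- Walsh function. -/
def w (S : Finset ℕ) (a : ℕ) : ℝ := ∏ t ∈ S, r t a

lemma r_mul_self (t a : ℕ) : r t a * r t a = 1 := by
  unfold r; split_ifs <;> norm_num

lemma w_mul_self (S : Finset ℕ) (a : ℕ) : w S a * w S a = 1 := by
  unfold w
  rw [← prod_mul_distrib]
  simp [r_mul_self]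

lemma abs_w (S : Finset ℕ) (a : ℕ) : |w S a| = 1 := by
  have h := w_mul_self S a
  have : |w S a| * |w S a| = 1 := by rw [← abs_mul, h, abs_one]
  nlinarith [abs_nonneg (w S a)]

/-- flip bit `t` -/
def fl (t a : ℕ) : ℕ := a ^^^ 2 ^ t

lemma fl_fl (t a : ℕ) : fl t (fl t a) = a := by
  unfold fl; simp

lemma fl_lt {t N a : ℕ} (ht : t < N) (ha : a < 2 ^ N) : fl t a < 2 ^ N :=
  Nat.xor_lt_two_pow ha (Nat.pow_lt_pow_right (by norm_num) ht)

lemma testBit_fl (t a u : ℕ) : (fl t a).testBit u = (a.testBit u ^^ decide (t = u)) := by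
  unfold fl
  rw [Nat.testBit_xor, Nat.testBit_two_pow]

lemma r_fl_self (t a : ℕ) : r t (fl t a) = - r t a := by
  unfold r
  rw [testBit_fl]
  cases a.testBit t <;> simp

lemma r_fl_ne {t u : ℕ} (h : t ≠ u) (a : ℕ) : r u (fl t a) = r u a := by
  unfold r
  rw [testBit_fl]
  simp [h]

lemma w_fl {S : Finset ℕ} {t : ℕ} (ht : t ∈ S) (a : ℕ) : w S (fl t a) = - w S a := by
  unfold w
  rw [← mul_prod_erase S _ ht, ← mul_prod_erase S (fun u => r u a) ht, r_fl_self, neg_mul]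
  congr 2
  apply prod_congr rfl
  intro u hu
  exact r_fl_ne (ne_of_mem_erase hu).symm a

lemma sum_fl {Y : Type*} [AddCommMonoid Y] {t N : ℕ} (ht : t < N) (F : ℕ → Y) :
    ∑ a ∈ range (2 ^ N), F (fl t a) = ∑ a ∈ range (2 ^ N), F a := by
  apply sum_nbij' (fl t) (fl t)
  · intro a ha; exact mem_range.2 (fl_lt ht (mem_range.1 ha))
  · intro a ha; exact mem_range.2 (fl_lt ht (mem_range.1 ha))
  · intro a _; exact fl_fl t a
  · intro a _; exact fl_fl t a
  · intro a _; rfl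

lemma sum_w_smul {Y : Type*} [AddCommGroup Y] [Module ℝ Y] {S : Finset ℕ} {t N : ℕ}
    (hS : t ∈ S) (ht : t < N) (F : ℕ → Y) :
    ∑ a ∈ range (2 ^ N), w S a • F a =
      ∑ a ∈ range (2 ^ N), w S a • ((1 / 2 : ℝ) • (F a - F (fl t a))) := by
  have h1 : ∑ a ∈ range (2 ^ N), w S a • F (fl t a) = - ∑ a ∈ range (2 ^ N), w S a • F a := by
    rw [← sum_fl ht (fun a => w S a • F a), ← sum_neg_distrib]
    apply sum_congr rfl
    intro a _
    rw [w_fl hS, neg_smul, neg_neg]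
  have h2 : ∀ a, w S a • ((1 / 2 : ℝ) • (F a - F (fl t a))) =
      (1 / 2 : ℝ) • (w S a • F a - w S a • F (fl t a)) := by
    intro a; rw [smul_comm, smul_sub]
  simp_rw [h2]
  rw [← smul_sum, sum_sub_distrib, h1, sub_neg_eq_add, ← two_smul ℝ, smul_smul]
  norm_num

lemma sum_w {S : Finset ℕ} {t N : ℕ} (hS : t ∈ S) (ht : t < N) :
    ∑ a ∈ range (2 ^ N), w S a = 0 := by
  have := sum_w_smul hS ht (fun _ => (1 : ℝ))
  simpa using this

lemma fl_div (t a : ℕ) : fl t a / 2 ^ (t + 1) = a / 2 ^ (t + 1) := by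
  apply Nat.eq_of_testBit_eq
  intro i
  rw [Nat.testBit_div_two_pow, Nat.testBit_div_two_pow, testBit_fl]
  have : t ≠ i + (t + 1) := by omega
  simp [this]

lemma fl_close (t a : ℕ) : fl t a ≤ a + 2 ^ (t + 1) ∧ a ≤ fl t a + 2 ^ (t + 1) := by
  have h := fl_div t a
  have h1 := Nat.div_add_mod (fl t a) (2 ^ (t + 1))
  have h2 := Nat.div_add_mod a (2 ^ (t + 1))
  have h3 := Nat.mod_lt (fl t a) (show 0 < 2 ^ (t + 1) by positivity)
  have h4 := Nat.mod_lt a (show 0 < 2 ^ (t + 1) by positivity)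
  rw [h] at h1
  omega

lemma dual_orth {N a b : ℕ} (ha : a < 2 ^ N) (hb : b < 2 ^ N) :
    ∑ S ∈ (range N).powerset, w S a * w S b = if a = b then (2 : ℝ) ^ N else 0 := by
  have h1 : ∑ S ∈ (range N).powerset, w S a * w S b = ∏ t ∈ range N, (1 + r t a * r t b) := by
    rw [prod_one_add]
    apply sum_congr rfl
    intro S _
    unfold w
    rw [prod_mul_distrib]
  rw [h1]
  split_ifs with h
  · subst h
    simp only [r_mul_self]
    norm_num
  · have : ∃ t, t < N ∧ a.testBit t ≠ b.testBit t := by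
      by_contra hc
      push Not at hc
      apply h
      apply Nat.eq_of_testBit_eq
      intro i
      by_cases hi : i < N
      · exact hc i hi
      · have hle : 2 ^ N ≤ 2 ^ i := Nat.pow_le_pow_right (by norm_num) (by omega)
        rw [Nat.testBit_lt_two_pow (lt_of_lt_of_le ha hle),
          Nat.testBit_lt_two_pow (lt_of_lt_of_le hb hle)]
    obtain ⟨t, ht, hne⟩ := this
    apply prod_eq_zero (mem_range.2 ht)
    unfold r
    cases h1 : a.testBit t <;> cases h2 : b.testBit t <;> simp_all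

lemma parseval (N : ℕ) (g : ℕ → ℝ) :
    ∑ S ∈ (range N).powerset, (∑ a ∈ range (2 ^ N), w S a * g a) ^ 2 =
      2 ^ N * ∑ a ∈ range (2 ^ N), g a ^ 2 := by
  have h1 : ∀ S : Finset ℕ, (∑ a ∈ range (2 ^ N), w S a * g a) ^ 2 =
      ∑ a ∈ range (2 ^ N), ∑ b ∈ range (2 ^ N), g a * g b * (w S a * w S b) := by
    intro S
    rw [sq, sum_mul_sum]
    apply sum_congr rfl; intro a _
    apply sum_congr rfl; intro b _
    ring
  simp_rw [h1]
  rw [sum_comm, mul_sum]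
  apply sum_congr rfl; intro a ha
  rw [sum_comm]
  have h2 : ∀ b ∈ range (2 ^ N), ∑ S ∈ (range N).powerset, g a * g b * (w S a * w S b) =
      if a = b then g a * g b * 2 ^ N else 0 := by
    intro b hb
    rw [← mul_sum, dual_orth (mem_range.1 ha) (mem_range.1 hb)]
    split_ifs <;> simp
  rw [sum_congr rfl h2, sum_ite_eq, if_pos ha]
  ring

/-- two-dimensional Walsh coefficient -/
def co {Y : Type*} [AddCommGroup Y] [Module ℝ Y] (N : ℕ) (S T : Finset ℕ) (F : ℕ → ℕ → Y) : Y :=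
  ∑ b ∈ range (2 ^ N), w T b • ∑ a ∈ range (2 ^ N), w S a • F a b

lemma parseval2 (N : ℕ) (g : ℕ → ℕ → ℝ) :
    ∑ S ∈ (range N).powerset, ∑ T ∈ (range N).powerset, (co N S T g) ^ 2 =
      (2 ^ N) ^ 2 * ∑ b ∈ range (2 ^ N), ∑ a ∈ range (2 ^ N), g a b ^ 2 := by
  unfold co
  simp only [smul_eq_mul]
  simp_rw [parseval]
  rw [← mul_sum, sum_comm]
  simp_rw [parseval]
  rw [← mul_sum]
  ring

lemma map_co {Y Z : Type*} [NormedAddCommGroup Y] [NormedSpace ℝ Y] [NormedAddCommGroup Z]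
    [NormedSpace ℝ Z] (A : Y →L[ℝ] Z) (N : ℕ) (S T : Finset ℕ) (F : ℕ → ℕ → Y) :
    A (co N S T F) = co N S T (fun a b => A (F a b)) := by
  unfold co
  simp only [map_sum, map_smul]

lemma co_fl {Y : Type*} [AddCommGroup Y] [Module ℝ Y] {N t : ℕ} {S : Finset ℕ} (hS : t ∈ S)
    (ht : t < N) (T : Finset ℕ) (F : ℕ → ℕ → Y) :
    co N S T F = co N S T (fun a b => (1 / 2 : ℝ) • (F a b - F (fl t a) b)) := by
  unfold co
  apply sum_congr rfl; intro b _
  rw [sum_w_smul hS ht (fun a => F a b)]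

/-- the sets with least element `t` -/
def fam (N t : ℕ) : Finset (Finset ℕ) := ((Ioo t N).powerset).image (insert t)

lemma card_fam (N t : ℕ) : (fam N t).card = 2 ^ (N - t - 1) := by
  unfold fam
  rw [card_image_of_injOn, card_powerset, Nat.card_Ioo]
  intro A hA B hB h
  have hA' : t ∉ A := fun hh => by simpa using (mem_powerset.1 hA) hh
  have hB' : t ∉ B := fun hh => by simpa using (mem_powerset.1 hB) hh
  have := congrArg (fun X => erase X t) h
  simpa [erase_insert hA', erase_insert hB'] using this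

lemma mem_fam {N t : ℕ} {S : Finset ℕ} (h : S ∈ fam N t) (ht : t < N) :
    t ∈ S ∧ (∀ u ∈ S, t ≤ u) ∧ S ∈ (range N).powerset := by
  unfold fam at h
  obtain ⟨A, hA, rfl⟩ := mem_image.1 h
  have hA' := mem_powerset.1 hA
  refine ⟨mem_insert_self _ _, ?_, mem_powerset.2 ?_⟩
  · intro u hu
    rcases mem_insert.1 hu with rfl | hu
    · exact le_rfl
    · exact (mem_Ioo.1 (hA' hu)).1.le
  · intro u hu
    rcases mem_insert.1 hu with rfl | hu
    · exact mem_range.2 ht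
    · exact mem_range.2 (mem_Ioo.1 (hA' hu)).2

lemma bessel_all (N : ℕ) (I : Finset ℕ) (hI : ∀ t ∈ I, t < N) (x : Finset ℕ → Finset ℕ → ℝ) :
    ∑ t ∈ I, ∑ S ∈ fam N t, ∑ T ∈ fam N t, x S T ^ 2 ≤
      ∑ S ∈ (range N).powerset, ∑ T ∈ (range N).powerset, x S T ^ 2 := by
  have h1 : ∑ t ∈ I, ∑ S ∈ fam N t, ∑ T ∈ fam N t, x S T ^ 2 ≤
      ∑ t ∈ I, ∑ S ∈ fam N t, ∑ T ∈ (range N).powerset, x S T ^ 2 := by
    apply sum_le_sum; intro t ht
    apply sum_le_sum; intro S _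
    apply sum_le_sum_of_subset_of_nonneg
    · intro T hT; exact (mem_fam hT (hI t ht)).2.2
    · intro _ _ _; positivity
  refine h1.trans ?_
  rw [← sum_biUnion]
  · apply sum_le_sum_of_subset_of_nonneg
    · intro S hS
      obtain ⟨t, ht, hS⟩ := mem_biUnion.1 hS
      exact (mem_fam hS (hI t ht)).2.2
    · intro _ _ _; exact sum_nonneg fun _ _ => by positivity
  · intro t ht u hu hne
    rw [Function.onFun, disjoint_left]
    intro S h1 h2
    have a1 := mem_fam h1 (hI t ht)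
    have a2 := mem_fam h2 (hI u hu)
    exact hne (le_antisymm (a1.2.1 u a2.1) (a2.2.1 t a1.1))

/-- tent of height `2^t/2` on each block of length `2^t` -/
def tent (t a : ℕ) : ℝ := min ((a % 2 ^ t : ℕ) : ℝ) (2 ^ t - ((a % 2 ^ t : ℕ) : ℝ))

lemma mod_lt_real (t a : ℕ) : ((a % 2 ^ t : ℕ) : ℝ) < 2 ^ t := by
  have := Nat.mod_lt a (show 0 < 2 ^ t by positivity)
  exact_mod_cast this

lemma tent_nonneg (t a : ℕ) : 0 ≤ tent t a :=
  le_min (Nat.cast_nonneg _) (sub_nonneg.2 (mod_lt_real t a).le)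

lemma tent_le (t a : ℕ) : tent t a ≤ 2 ^ t / 2 := by
  unfold tent
  have h1 := min_le_left ((a % 2 ^ t : ℕ) : ℝ) (2 ^ t - ((a % 2 ^ t : ℕ) : ℝ))
  have h2 := min_le_right ((a % 2 ^ t : ℕ) : ℝ) (2 ^ t - ((a % 2 ^ t : ℕ) : ℝ))
  linarith

lemma w_eq_of_div {S : Finset ℕ} {t a b : ℕ} (hS : ∀ u ∈ S, t ≤ u) (h : a / 2 ^ t = b / 2 ^ t) :
    w S a = w S b := by
  unfold w
  apply prod_congr rfl
  intro u hu
  obtain ⟨i, rfl⟩ := Nat.exists_eq_add_of_le' (hS u hu)
  unfold r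
  rw [← Nat.testBit_div_two_pow, ← Nat.testBit_div_two_pow, h]

lemma tent_lip_aux {S : Finset ℕ} {t a b : ℕ} (hab : a / 2 ^ t < b / 2 ^ t) :
    |w S a * tent t a - w S b * tent t b| ≤ |(a : ℝ) - b| := by
  have h1 : (a : ℝ) = 2 ^ t * ((a / 2 ^ t : ℕ) : ℝ) + ((a % 2 ^ t : ℕ) : ℝ) := by
    exact_mod_cast (Nat.div_add_mod a (2 ^ t)).symm
  have h2 : (b : ℝ) = 2 ^ t * ((b / 2 ^ t : ℕ) : ℝ) + ((b % 2 ^ t : ℕ) : ℝ) := by
    exact_mod_cast (Nat.div_add_mod b (2 ^ t)).symm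
  have h3 : ((a / 2 ^ t : ℕ) : ℝ) + 1 ≤ ((b / 2 ^ t : ℕ) : ℝ) := by exact_mod_cast hab
  have h4 : tent t a ≤ 2 ^ t - ((a % 2 ^ t : ℕ) : ℝ) := min_le_right _ _
  have h5 : tent t b ≤ ((b % 2 ^ t : ℕ) : ℝ) := min_le_left _ _
  have h6 : |w S a * tent t a - w S b * tent t b| ≤ tent t a + tent t b := by
    refine (abs_sub _ _).trans ?_
    rw [abs_mul, abs_mul, abs_w, abs_w, one_mul, one_mul, abs_of_nonneg (tent_nonneg t a),
      abs_of_nonneg (tent_nonneg t b)]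
  have h7 : (0 : ℝ) < 2 ^ t := by positivity
  have h8 : (b : ℝ) - a ≤ |(a : ℝ) - b| := by rw [abs_sub_comm]; exact le_abs_self _
  nlinarith

lemma tent_lip {S : Finset ℕ} {t : ℕ} (hS : ∀ u ∈ S, t ≤ u) (a b : ℕ) :
    |w S a * tent t a - w S b * tent t b| ≤ |(a : ℝ) - b| := by
  rcases lt_trichotomy (a / 2 ^ t) (b / 2 ^ t) with h | h | h
  · exact tent_lip_aux h
  · rw [w_eq_of_div hS h, ← mul_sub, abs_mul, abs_w, one_mul]
    have h1 : (a : ℝ) = 2 ^ t * ((a / 2 ^ t : ℕ) : ℝ) + ((a % 2 ^ t : ℕ) : ℝ) := by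
      exact_mod_cast (Nat.div_add_mod a (2 ^ t)).symm
    have h2 : (b : ℝ) = 2 ^ t * ((b / 2 ^ t : ℕ) : ℝ) + ((b % 2 ^ t : ℕ) : ℝ) := by
      exact_mod_cast (Nat.div_add_mod b (2 ^ t)).symm
    have h3 : (a : ℝ) - b = ((a % 2 ^ t : ℕ) : ℝ) - ((b % 2 ^ t : ℕ) : ℝ) := by
      rw [h] at h1; linarith
    rw [h3]
    unfold tent
    refine (abs_min_sub_min_le_max _ _ _ _).trans ?_
    apply max_le le_rfl
    rw [abs_sub_comm]
    apply le_of_eq
    congr 1; ring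
  · rw [abs_sub_comm, abs_sub_comm (a : ℝ)]
    exact tent_lip_aux h

lemma tent_ge (u a : ℕ) : (2 : ℝ) ^ u * ((1 - w {u, u + 1} a) / 2) ≤ tent (u + 2) a := by
  have hw : w {u, u + 1} a = r u a * r (u + 1) a := by
    unfold w; rw [prod_pair (by omega)]
  by_cases hb : a.testBit u = a.testBit (u + 1)
  · have : w {u, u + 1} a = 1 := by
      rw [hw]; unfold r; rw [hb]; split_ifs <;> norm_num
    rw [this]
    simpa using tent_nonneg (u + 2) a
  · have hw1 : w {u, u + 1} a = -1 := by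
      rw [hw]; unfold r
      cases h1 : a.testBit u <;> cases h2 : a.testBit (u + 1) <;> simp_all
    rw [hw1]
    set c := a % 2 ^ (u + 2) with hc
    have hc4 : c < 2 ^ (u + 2) := Nat.mod_lt _ (by positivity)
    have e0 : (c / 2 ^ u).testBit 0 = a.testBit u := by
      rw [Nat.testBit_div_two_pow, hc, Nat.testBit_mod_two_pow]; simp
    have e1 : (c / 2 ^ u).testBit 1 = a.testBit (u + 1) := by
      rw [Nat.testBit_div_two_pow, hc, Nat.testBit_mod_two_pow, add_comm 1 u]; simp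
    have hq : c / 2 ^ u < 4 := by
      rw [Nat.div_lt_iff_lt_mul (by positivity)]
      calc c < 2 ^ (u + 2) := hc4
        _ = 4 * 2 ^ u := by ring
    have hd := Nat.div_add_mod c (2 ^ u)
    have hm := Nat.mod_lt c (show 0 < 2 ^ u by positivity)
    rw [← e0, ← e1] at hb
    have hq' : c / 2 ^ u = 1 ∨ c / 2 ^ u = 2 := by
      generalize c / 2 ^ u = q at hq hb
      interval_cases q <;> simp_all <;> exact absurd hb (by decide)
    have h1 : 2 ^ u ≤ c ∧ c ≤ 3 * 2 ^ u := by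
      rcases hq' with h | h <;> rw [h] at hd <;> omega
    have h2 : (2 : ℝ) ^ u ≤ c := by exact_mod_cast h1.1
    have h3 : (c : ℝ) ≤ 3 * 2 ^ u := by exact_mod_cast h1.2
    unfold tent
    rw [← hc]
    apply le_min
    · linarith
    · rw [pow_add]; linarith

lemma sum_tent {N t : ℕ} (h2 : 2 ≤ t) (ht : t < N) :
    (2 : ℝ) ^ N * 2 ^ t / 8 ≤ ∑ a ∈ range (2 ^ N), tent t a := by
  obtain ⟨u, rfl⟩ := Nat.exists_eq_add_of_le' h2
  refine le_trans (le_of_eq ?_) (sum_le_sum fun a _ => tent_ge u a)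
  rw [← mul_sum, ← sum_div, sum_sub_distrib,
    sum_w (S := {u, u + 1}) (t := u) (by simp) (by omega)]
  simp
  ring

end Pool.Agent.H686Z.Walsh
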